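import Pool.Agent.Q143.JN.Ind
import Mathlib.LinearAlgebra.Matrix.Notation
import Mathlib.Data.Matrix.Mul
import Mathlib.Algebra.MvPolynomial.NoZeroDivisors

/-!
# Two by two matrices over rings with a degree function
-/

set_option autoImplicit false
set_option linter.unusedSectionVars false
set_option linter.style.haveILetI false

namespace Pool.Agent.Q143.JN

open Monoid Pool.Agent.Y462.SS Pool.Agent.Q152.WP Pool.Agent.Q143.AR Pool.Agent.Q143.MV

/-- the group of invertible two by two matrices -/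
abbrev M2 (R : Type) [Ring R] : Type := (Matrix (Fin 2) (Fin 2) R)ˣ

section

variable {R : Type} [Ring R]

/-- upper elementary matrices -/
def up (r : R) : M2 R where
  val := !![1, r; 0, 1]
  inv := !![1, -r; 0, 1]
  val_inv := by
    rw [Matrix.mul_fin_two, Matrix.one_fin_two]
    simp
  inv_val := by
    rw [Matrix.mul_fin_two, Matrix.one_fin_two]
    simp

/-- lower elementary matrices -/
def lo (r : R) : M2 R where
  val := !![1, 0; r, 1]
  inv := !![1, 0; -r, 1]
  val_inv := by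
    rw [Matrix.mul_fin_two, Matrix.one_fin_two]
    simp
  inv_val := by
    rw [Matrix.mul_fin_two, Matrix.one_fin_two]
    simp

/-- invertible diagonal matrices -/
def dg (u v : Rˣ) : M2 R where
  val := !![(u : R), 0; 0, (v : R)]
  inv := !![((u⁻¹ : Rˣ) : R), 0; 0, ((v⁻¹ : Rˣ) : R)]
  val_inv := by
    rw [Matrix.mul_fin_two, Matrix.one_fin_two]
    simp
  inv_val := by
    rw [Matrix.mul_fin_two, Matrix.one_fin_two]
    simp

variable (R) in
/-- the group generated by the elementary matrices and the invertible diagonal matrices -/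
def GE : Subgroup (M2 R) :=
  Subgroup.closure ({g | ∃ r, g = up r} ∪ {g | ∃ r, g = lo r} ∪ {g | ∃ u v, g = dg u v})

variable (R) in
/-- the group of the upper triangular matrices with upper triangular inverse -/
def UT : Subgroup (M2 R) where
  carrier := {g | g.1 1 0 = 0 ∧ (g⁻¹).1 1 0 = 0}
  one_mem' := ⟨rfl, rfl⟩
  mul_mem' := by
    rintro a b ⟨ha, ha'⟩ ⟨hb, hb'⟩
    refine ⟨?_, ?_⟩
    · rw [Units.val_mul, Matrix.mul_apply, Fin.sum_univ_two, ha, hb, zero_mul, mul_zero, add_zero]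
    · rw [mul_inv_rev, Units.val_mul, Matrix.mul_apply, Fin.sum_univ_two, ha', hb', zero_mul,
        mul_zero, add_zero]
  inv_mem' := by
    rintro a ⟨ha, ha'⟩
    exact ⟨ha', by rw [inv_inv]; exact ha⟩

/-- the homomorphism given by a ring homomorphism -/
def mp {S : Type} [Ring S] (φ : R →+* S) : M2 R →* M2 S :=
  Units.map (RingHom.mapMatrix φ).toMonoidHom

theorem mp_apply {S : Type} [Ring S] (φ : R →+* S) (g : M2 R) (a b : Fin 2) :
    (mp φ g).1 a b = φ (g.1 a b) := rfl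

/-- the action on the column vectors -/
def act2 : M2 R →* Equiv.Perm (Fin 2 → R) where
  toFun g :=
    { toFun := fun v => g.1.mulVec v
      invFun := fun v => (g⁻¹).1.mulVec v
      left_inv := fun v => by
        change (g⁻¹).1.mulVec (g.1.mulVec v) = v
        rw [Matrix.mulVec_mulVec, ← Units.val_mul, inv_mul_cancel, Units.val_one,
          Matrix.one_mulVec]
      right_inv := fun v => by
        change g.1.mulVec ((g⁻¹).1.mulVec v) = v
        rw [Matrix.mulVec_mulVec, ← Units.val_mul, mul_inv_cancel, Units.val_one,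
          Matrix.one_mulVec] }
  map_one' := by
    ext v : 1
    change (1 : Matrix (Fin 2) (Fin 2) R).mulVec v = v
    rw [Matrix.one_mulVec]
  map_mul' g h := by
    ext v : 1
    change (g.1 * h.1).mulVec v = g.1.mulVec (h.1.mulVec v)
    rw [Matrix.mulVec_mulVec]

theorem act2_apply (g : M2 R) (v : Fin 2 → R) (a : Fin 2) :
    act2 g v a = g.1 a 0 * v 0 + g.1 a 1 * v 1 := by
  change (g.1.mulVec v) a = _
  rw [Matrix.mulVec, dotProduct, Fin.sum_univ_two]

theorem up_mul (r s : R) : up (r + s) = up r * up s := by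
  apply Units.ext
  change !![1, r + s; 0, 1] = (!![1, r; 0, 1] * !![1, s; 0, 1] : Matrix (Fin 2) (Fin 2) R)
  rw [Matrix.mul_fin_two]
  simp [add_comm]

theorem up_comm (r s : R) : up r * up s = up s * up r := by
  rw [← up_mul, ← up_mul, add_comm]

end

section

variable {K R L : Type} [DivisionRing K] [Ring R] [LinearOrder L]

/-- A degree function on the ring `R` with the constants `K` (given by `ι`) and the augmentation
`ε`. -/
structure IsDeg (ι : K →+* R) (ε : R →+* K) (deg : R → L) : Prop where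
  aug : ∀ k, ε (ι k) = k
  add : ∀ a b, deg (a + b) ≤ max (deg a) (deg b)
  const : ∀ k a, deg (ι k * a) ≤ deg a
  mul : ∀ r a, ε r = 0 → r ≠ 0 → a ≠ 0 → deg a < deg (r * a)

variable {ι : K →+* R} {ε : R →+* K} {deg : R → L}

namespace IsDeg

theorem const' (h : IsDeg ι ε deg) {k : K} (hk : k ≠ 0) (a : R) : deg (ι k * a) = deg a := by
  refine le_antisymm (h.const k a) ?_
  have h1 := h.const k⁻¹ (ι k * a)
  rwa [← mul_assoc, ← map_mul, inv_mul_cancel₀ hk, map_one, one_mul] at h1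

theorem neg (h : IsDeg ι ε deg) (a : R) : deg (-a) = deg a := by
  have h1 := h.const' (k := -1) (neg_ne_zero.2 one_ne_zero) a
  rwa [map_neg, map_one, neg_mul, one_mul] at h1

theorem zero_le (h : IsDeg ι ε deg) (a : R) : deg 0 ≤ deg a := by
  have h1 := h.const 0 a
  rwa [map_zero, zero_mul] at h1

theorem add_eq (h : IsDeg ι ε deg) {a b : R} (hab : deg b < deg a) : deg (a + b) = deg a := by
  refine le_antisymm ((h.add a b).trans (max_le le_rfl hab.le)) ?_
  have h1 := h.add (a + b) (-b)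
  rw [add_neg_cancel_right, h.neg] at h1
  rcases le_max_iff.1 h1 with h2 | h2
  · exact h2
  · exact absurd h2 (not_le.2 hab)

theorem add_eq' (h : IsDeg ι ε deg) {a b : R} (hab : deg b < deg a) : deg (b + a) = deg a := by
  rw [add_comm, h.add_eq hab]

/-- the units of `R` are constants -/
theorem unit (h : IsDeg ι ε deg) (u : Rˣ) : (u : R) = ι (ε u) := by
  have hnt : (1 : R) ≠ 0 := by
    intro h0
    have h1 := congrArg ε h0
    rw [map_one, map_zero] at h1
    exact one_ne_zero h1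
  have key : ∀ v : Rˣ, deg 1 < deg (v : R) ∨ (v : R) = ι (ε v) := by
    intro v
    by_cases hv : (v : R) = ι (ε v)
    · exact Or.inr hv
    · left
      have h1 := h.mul ((v : R) - ι (ε v)) 1 (by rw [map_sub, h.aug, sub_self])
        (sub_ne_zero.2 hv) hnt
      rw [mul_one, sub_eq_add_neg] at h1
      have h2 := h.add (v : R) (-ι (ε v))
      have h3 : deg (-ι (ε v)) ≤ deg 1 := by
        rw [h.neg]
        have h4 := h.const (ε v) 1
        rwa [mul_one] at h4
      rcases le_max_iff.1 h2 with h4 | h4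
      · exact h1.trans_le h4
      · exact absurd (h4.trans h3) (not_le.2 h1)
  by_contra hu
  have hinv : deg 1 < deg ((u⁻¹ : Rˣ) : R) := by
    rcases key u⁻¹ with h1 | h1
    · exact h1
    · exfalso
      apply hu
      have h2 : ε (u : R) * ε ((u⁻¹ : Rˣ) : R) = 1 := by
        rw [← map_mul, Units.mul_inv, map_one]
      have h3 : ι (ε (u : R)) * ((u⁻¹ : Rˣ) : R) = 1 := by
        rw [h1, ← map_mul, h2, map_one]
      calc (u : R) = 1 * u := (one_mul _).symm
        _ = ι (ε (u : R)) * ((u⁻¹ : Rˣ) : R) * u := by rw [h3]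
        _ = ι (ε (u : R)) := by rw [mul_assoc, Units.inv_mul, mul_one]
  have h1 := h.mul ((u : R) - ι (ε u)) ((u⁻¹ : Rˣ) : R) (by rw [map_sub, h.aug, sub_self])
    (sub_ne_zero.2 hu) (by
      intro h0
      have h2 := Units.inv_mul u
      rw [h0, zero_mul] at h2
      exact hnt h2.symm)
  rw [sub_mul, Units.mul_inv, sub_eq_add_neg] at h1
  have h2 := h.add 1 (-(ι (ε (u : R)) * ((u⁻¹ : Rˣ) : R)))
  rw [h.neg] at h2
  rcases le_max_iff.1 h2 with h3 | h3
  · exact absurd (h3.trans hinv.le) (not_le.2 h1)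
  · exact absurd (h3.trans (h.const _ _)) (not_le.2 h1)

end IsDeg

/-- the set for the table tennis argument -/
def X2 (deg : R → L) : Set (Fin 2 → R) := {v | deg (v 1) < deg (v 0)}

variable (ε) in
/-- the unipotent matrices with entry in the augmentation ideal -/
def UI : Subgroup (M2 R) where
  carrier := {g | ∃ r, ε r = 0 ∧ g = up r}
  one_mem' := ⟨0, map_zero _, by
    apply Units.ext
    change (1 : Matrix (Fin 2) (Fin 2) R) = !![1, 0; 0, 1]
    rw [Matrix.one_fin_two]⟩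
  mul_mem' := by
    rintro _ _ ⟨r, hr, rfl⟩ ⟨s, hs, rfl⟩
    exact ⟨r + s, by rw [map_add, hr, hs, add_zero], (up_mul r s).symm⟩
  inv_mem' := by
    rintro _ ⟨r, hr, rfl⟩
    refine ⟨-r, by rw [map_neg, hr, neg_zero], ?_⟩
    apply Units.ext
    rfl

theorem ut_iff (g : M2 K) : g ∈ UT K ↔ g.1 1 0 = 0 := by
  refine ⟨fun h => h.1, fun h => ⟨h, ?_⟩⟩
  have h1 : ((g⁻¹).1 * g.1) 0 0 = 1 := by
    rw [← Units.val_mul, inv_mul_cancel]
    rfl
  have h2 : ((g⁻¹).1 * g.1) 1 0 = 0 := by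
    rw [← Units.val_mul, inv_mul_cancel]
    rfl
  rw [Matrix.mul_apply, Fin.sum_univ_two, h, mul_zero, add_zero] at h1 h2
  rcases mul_eq_zero.1 h2 with h3 | h3
  · exact h3
  · rw [h3, mul_zero] at h1
    exact absurd h1 zero_ne_one

/-- the Weyl element -/
def wy (R : Type) [Ring R] : M2 R where
  val := !![0, 1; -1, 0]
  inv := !![0, -1; 1, 0]
  val_inv := by
    rw [Matrix.mul_fin_two, Matrix.one_fin_two]
    simp
  inv_val := by
    rw [Matrix.mul_fin_two, Matrix.one_fin_two]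
    simp

theorem three (K : Type) [DivisionRing K] : ∃ x y z : M2 K ⧸ UT K, x ≠ y ∧ x ≠ z ∧ y ≠ z := by
  refine ⟨((1 : M2 K) : M2 K ⧸ UT K), ((wy K : M2 K) : M2 K ⧸ UT K),
    ((lo (1 : K) : M2 K) : M2 K ⧸ UT K), ?_, ?_, ?_⟩
  · intro h
    rw [QuotientGroup.eq, ut_iff, inv_one, one_mul] at h
    exact (neg_ne_zero.2 (one_ne_zero (α := K))) h
  · intro h
    rw [QuotientGroup.eq, ut_iff, inv_one, one_mul] at h
    exact (one_ne_zero (α := K)) h
  · intro h
    rw [QuotientGroup.eq, ut_iff] at h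
    change ((!![0, -1; 1, 0] * !![1, 0; 1, 1] : Matrix (Fin 2) (Fin 2) K)) 1 0 = 0 at h
    rw [Matrix.mul_fin_two] at h
    simp at h

theorem up_mem_ut (r : R) : up r ∈ UT R := ⟨rfl, rfl⟩

theorem mp_mem_ut (ι : K →+* R) {g : M2 K} (h : g ∈ UT K) : mp ι g ∈ UT R := by
  refine ⟨?_, ?_⟩
  · rw [mp_apply, h.1, map_zero]
  · rw [← map_inv, mp_apply, h.2, map_zero]

theorem conj_up (ι : K →+* R) (ε : R →+* K) {b : M2 K} (hb : b ∈ UT K) (u : M2 R)
    (hu : u ∈ UI ε) : mp ι b * u * (mp ι b)⁻¹ ∈ UI ε := by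
  obtain ⟨r, hr, rfl⟩ := hu
  have h1 : (b.1 * (b⁻¹).1) = 1 := Units.mul_inv b
  have h00 := congrFun (congrFun h1 0) 0
  have h01 := congrFun (congrFun h1 0) 1
  have h11 := congrFun (congrFun h1 1) 1
  have hb1 : b.1 1 0 = 0 := hb.1
  have hb2 : (b⁻¹).1 1 0 = 0 := hb.2
  rw [Matrix.mul_apply, Fin.sum_univ_two, hb2, mul_zero, add_zero] at h00
  rw [Matrix.mul_apply, Fin.sum_univ_two] at h01
  rw [Matrix.mul_apply, Fin.sum_univ_two, hb1, zero_mul, zero_add] at h11
  refine ⟨ι (b.1 0 0) * r * ι ((b⁻¹).1 1 1), by rw [map_mul, map_mul, hr, mul_zero, zero_mul], ?_⟩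
  apply Units.ext
  rw [← map_inv]
  change (mp ι b).1 * !![1, r; 0, 1] * (mp ι b⁻¹).1 = !![1, _; 0, 1]
  rw [Matrix.eta_fin_two (mp ι b).1, Matrix.eta_fin_two (mp ι b⁻¹).1, Matrix.mul_fin_two,
    Matrix.mul_fin_two]
  simp only [mp_apply, hb1, hb2, map_zero, mul_zero, mul_one, add_zero, zero_mul, zero_add]
  have e00 : ι (b.1 0 0) * ι ((b⁻¹).1 0 0) = 1 := by
    rw [← map_mul, h00]
    exact map_one ι
  have e11 : ι (b.1 1 1) * ι ((b⁻¹).1 1 1) = 1 := by
    rw [← map_mul, h11]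
    exact map_one ι
  have e01 : ι (b.1 0 0) * ι ((b⁻¹).1 0 1) + ι (b.1 0 1) * ι ((b⁻¹).1 1 1) = 0 := by
    rw [← map_mul, ← map_mul, ← map_add, h01]
    exact map_zero ι
  rw [e00, e11]
  have e2 : ι (b.1 0 0) * ι ((b⁻¹).1 0 1) +
      (ι (b.1 0 0) * r + ι (b.1 0 1)) * ι ((b⁻¹).1 1 1) =
      ι (b.1 0 0) * r * ι ((b⁻¹).1 1 1) := by
    rw [add_mul]
    calc _ = ι (b.1 0 0) * r * ι ((b⁻¹).1 1 1) +
        (ι (b.1 0 0) * ι ((b⁻¹).1 0 1) + ι (b.1 0 1) * ι ((b⁻¹).1 1 1)) := by abel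
      _ = _ := by rw [e01, add_zero]
  rw [e2]

theorem tennis1 (h : IsDeg ι ε deg) (g : M2 K) (hg : g ∉ UT K) (v : Fin 2 → R)
    (hv : v ∈ X2 deg) : deg (act2 (mp ι g) v 1) = deg (v 0) ∧
      deg (act2 (mp ι g) v 0) ≤ deg (v 0) := by
  rw [ut_iff] at hg
  have hv' : deg (v 1) < deg (v 0) := hv
  refine ⟨?_, ?_⟩
  · rw [act2_apply, mp_apply, mp_apply]
    rw [h.add_eq]
    · exact h.const' hg _
    · rw [h.const' hg]
      exact (h.const _ _).trans_lt hv'
  · rw [act2_apply, mp_apply, mp_apply]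
    refine (h.add _ _).trans (max_le (h.const _ _) ((h.const _ _).trans hv'.le))

theorem tennis2 (h : IsDeg ι ε deg) (g : M2 K) (hg : g ∉ UT K) (u : M2 R) (hu : u ∈ UI ε)
    (hu1 : u ≠ 1) (v : Fin 2 → R) (hv : v ∈ X2 deg) : act2 u (act2 (mp ι g) v) ∈ X2 deg := by
  obtain ⟨h1, h2⟩ := tennis1 h g hg v hv
  have hv' : deg (v 1) < deg (v 0) := hv
  obtain ⟨r, hr, rfl⟩ := hu
  have hr0 : r ≠ 0 := by
    rintro rfl
    apply hu1
    apply Units.ext
    change !![1, 0; 0, 1] = (1 : Matrix (Fin 2) (Fin 2) R)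
    rw [Matrix.one_fin_two]
  have e1 : act2 (up r) (act2 (mp ι g) v) 1 = act2 (mp ι g) v 1 := by
    rw [act2_apply]
    change 0 * _ + 1 * _ = _
    rw [zero_mul, zero_add, one_mul]
  have e0 : act2 (up r) (act2 (mp ι g) v) 0 = act2 (mp ι g) v 0 + r * act2 (mp ι g) v 1 := by
    rw [act2_apply]
    change 1 * _ + r * _ = _
    rw [one_mul]
  have hne : act2 (mp ι g) v 1 ≠ 0 := by
    intro h0
    rw [h0] at h1
    exact absurd (h1.symm.le.trans (h.zero_le _)) (not_le.2 hv')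
  have h3 := h.mul r _ hr hr0 hne
  change deg (act2 (up r) (act2 (mp ι g) v) 1) < deg (act2 (up r) (act2 (mp ι g) v) 0)
  rw [e1, e0, h.add_eq']
  · exact h3
  · rw [h1] at h3
    exact h2.trans_lt h3

theorem dg_mem (h : IsDeg ι ε deg) (u v : Rˣ) : dg u v ∈ (mp ι).range := by
  refine ⟨dg (Units.map ε.toMonoidHom u) (Units.map ε.toMonoidHom v), ?_⟩
  apply Units.ext
  ext a b
  rw [mp_apply]
  fin_cases a <;> fin_cases b
  · exact (h.unit u).symm
  · exact map_zero ι
  · exact map_zero ι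
  · exact (h.unit v).symm

theorem up_mem (h : IsDeg ι ε deg) (r : R) :
    up r ∈ Subgroup.closure (Set.range (mp ι) ∪ (UI ε : Set (M2 R))) := by
  have h1 : up r = mp ι (up (ε r)) * up (r - ι (ε r)) := by
    have h2 : mp ι (up (ε r)) = up (ι (ε r)) := by
      apply Units.ext
      ext a b
      rw [mp_apply]
      fin_cases a <;> fin_cases b
      · exact map_one ι
      · rfl
      · exact map_zero ι
      · exact map_one ι
    rw [h2, ← up_mul, add_sub_cancel]
  rw [h1]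
  refine mul_mem (Subgroup.subset_closure (Or.inl ⟨_, rfl⟩))
    (Subgroup.subset_closure (Or.inr ⟨_, ?_, rfl⟩))
  rw [map_sub, h.aug, sub_self]

theorem GE_le (h : IsDeg ι ε deg) :
    GE R ≤ Subgroup.closure (Set.range (mp ι) ∪ (UI ε : Set (M2 R))) := by
  refine (Subgroup.closure_le _).2 ?_
  rintro _ ((⟨r, rfl⟩ | ⟨r, rfl⟩) | ⟨u, v, rfl⟩)
  · exact up_mem h r
  · have h1 : lo r = mp ι (wy K)⁻¹ * up (-r) * mp ι (wy K) := by
      apply Units.ext
      rw [Units.val_mul, Units.val_mul]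
      rw [Matrix.eta_fin_two (mp ι (wy K)⁻¹).1, Matrix.eta_fin_two (mp ι (wy K)).1]
      simp only [mp_apply]
      change !![1, 0; r, 1] = !![ι 0, ι (-1); ι 1, ι 0] * !![1, -r; 0, 1] *
        !![ι 0, ι 1; ι (-1), ι 0]
      rw [Matrix.mul_fin_two, Matrix.mul_fin_two]
      simp
    rw [h1]
    exact mul_mem (mul_mem (Subgroup.subset_closure (Or.inl ⟨_, rfl⟩)) (up_mem h _))
      (Subgroup.subset_closure (Or.inl ⟨_, rfl⟩))
  · obtain ⟨g, hg⟩ := dg_mem h u v
    rw [← hg]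
    exact Subgroup.subset_closure (Or.inl ⟨_, rfl⟩)

theorem ut_dec (g : M2 R) (hg : g ∈ UT R) : ∃ u v : Rˣ, ∃ r : R, g = dg u v * up r ∧
    (u : R) = g.1 0 0 ∧ (v : R) = g.1 1 1 := by
  obtain ⟨h1, h2⟩ := hg
  have e1 : g.1 * (g⁻¹).1 = 1 := Units.mul_inv g
  have e2 : (g⁻¹).1 * g.1 = 1 := Units.inv_mul g
  have a00 := congrFun (congrFun e1 0) 0
  have a11 := congrFun (congrFun e1 1) 1
  have b00 := congrFun (congrFun e2 0) 0
  have b11 := congrFun (congrFun e2 1) 1
  rw [Matrix.mul_apply, Fin.sum_univ_two] at a00 a11 b00 b11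
  rw [h2, mul_zero, add_zero] at a00
  rw [h1, zero_mul, zero_add] at a11
  rw [h1, mul_zero, add_zero] at b00
  rw [h2, zero_mul, zero_add] at b11
  refine ⟨⟨g.1 0 0, (g⁻¹).1 0 0, a00, b00⟩, ⟨g.1 1 1, (g⁻¹).1 1 1, a11, b11⟩,
    (g⁻¹).1 0 0 * g.1 0 1, ?_, rfl, rfl⟩
  apply Units.ext
  change g.1 = !![g.1 0 0, 0; 0, g.1 1 1] * !![1, (g⁻¹).1 0 0 * g.1 0 1; 0, 1]
  rw [Matrix.mul_fin_two]
  conv_lhs => rw [Matrix.eta_fin_two g.1]
  rw [h1, ← mul_assoc, a00]
  simp

theorem UT_le : UT R ≤ GE R := by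
  intro g hg
  obtain ⟨u, v, r, hg', -, -⟩ := ut_dec g hg
  rw [hg']
  exact mul_mem (Subgroup.subset_closure (Or.inr ⟨u, v, rfl⟩))
    (Subgroup.subset_closure (Or.inl (Or.inl ⟨r, rfl⟩)))

/-- the constant matrices are in `GE_2(R)` -/
theorem mp_mem_GE (g : M2 K) : mp ι g ∈ GE R := by
  have hup : ∀ r : K, mp ι (up r) ∈ GE R := by
    intro r
    refine Subgroup.subset_closure (Or.inl (Or.inl ⟨ι r, ?_⟩))
    apply Units.ext
    ext a b
    rw [mp_apply]
    fin_cases a <;> fin_cases b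
    · exact map_one ι
    · rfl
    · exact map_zero ι
    · exact map_one ι
  have hlo : ∀ r : K, mp ι (lo r) ∈ GE R := by
    intro r
    refine Subgroup.subset_closure (Or.inl (Or.inr ⟨ι r, ?_⟩))
    apply Units.ext
    ext a b
    rw [mp_apply]
    fin_cases a <;> fin_cases b
    · exact map_one ι
    · exact map_zero ι
    · rfl
    · exact map_one ι
  have hut : ∀ g ∈ UT K, mp ι g ∈ GE R := fun g hg => UT_le (mp_mem_ut ι hg)
  have hw : wy K = up 1 * lo (-1) * up 1 := by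
    apply Units.ext
    change !![0, 1; -1, 0] = !![1, 1; 0, 1] * !![1, 0; -1, 1] * !![1, 1; 0, 1]
    rw [Matrix.mul_fin_two, Matrix.mul_fin_two]
    simp
  by_cases hg : g.1 1 0 = 0
  · exact hut g ((ut_iff g).2 hg)
  · have h1 : (wy K)⁻¹ * up (-(g.1 0 0 * (g.1 1 0)⁻¹)) * g ∈ UT K := by
      rw [ut_iff]
      change (!![0, -1; 1, 0] * !![1, -(g.1 0 0 * (g.1 1 0)⁻¹); 0, 1] * g.1 :
        Matrix (Fin 2) (Fin 2) K) 1 0 = 0
      rw [Matrix.mul_fin_two, Matrix.eta_fin_two g.1, Matrix.mul_fin_two]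
      simp [mul_assoc, hg]
    have h2 : g = (up (-(g.1 0 0 * (g.1 1 0)⁻¹)))⁻¹ * wy K *
        ((wy K)⁻¹ * up (-(g.1 0 0 * (g.1 1 0)⁻¹)) * g) := by group
    rw [h2, map_mul, map_mul, map_inv]
    refine mul_mem (mul_mem (inv_mem (hup _)) ?_) (hut _ h1)
    rw [hw, map_mul, map_mul]
    exact mul_mem (mul_mem (hup _) (hlo _)) (hup _)

end

section

variable {C : ∀ (G : Type) [Group G], Prop} {K R L : Type} [DivisionRing K] [Ring R]
  [LinearOrder L] {ι : K →+* R} {ε : R →+* K} {deg : R → L}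

/-- membership of the subgroups of `GE_2(R)` -/
theorem ge_mem (hC : Closed C) (hE : ExtClosed C) (h : IsDeg ι ε deg) (hU : C (UT R))
    (Γ : Subgroup (M2 R)) (hΓ : Γ ≤ GE R) (hQ : C (Γ.map (mp ε))) : C Γ := by
  have hfi : ∀ g : M2 K, mp ε (mp ι g) = g := by
    intro g
    apply Units.ext
    ext a b
    rw [mp_apply, mp_apply, h.aug]
  have hfj : ∀ u ∈ UI ε, mp ε u = 1 := by
    rintro _ ⟨r, hr, rfl⟩
    apply Units.ext
    ext a b
    rw [mp_apply]
    fin_cases a <;> fin_cases b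
    · exact map_one ε
    · exact hr
    · exact map_zero ε
    · exact map_one ε
  by_cases hI : ∃ r : R, ε r = 0 ∧ r ≠ 0
  · obtain ⟨r, hr, hr0⟩ := hI
    have hnt : (1 : R) ≠ 0 := by
      intro h0
      have h1 := congrArg ε h0
      rw [map_one, map_zero] at h1
      exact one_ne_zero h1
    refine ind_mem' hC hE (UT K) (mp ι) (UI ε) (fun b hb u hu => conj_up ι ε hb u hu) act2
      (X2 deg) ⟨![r, 1], ?_⟩ ?_ ?_ (three K) (mp ε) hfi hfj ?_ Γ (hΓ.trans (GE_le h)) hQ
    · change deg 1 < deg r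
      have h1 := h.mul r 1 hr hr0 hnt
      rwa [mul_one] at h1
    · intro g hg v hv hv'
      obtain ⟨h1, h2⟩ := tennis1 h g hg v hv
      have h3 : deg (act2 (mp ι g) v 1) < deg (act2 (mp ι g) v 0) := hv'
      rw [h1] at h3
      exact absurd h2 (not_le.2 h3)
    · exact fun g hg u hu hu1 v hv => tennis2 h g hg u hu hu1 v hv
    · have h1 : Subgroup.closure ({g | ∃ b ∈ UT K, g = mp ι b} ∪ (UI ε : Set (M2 R))) ≤ UT R := by
        refine (Subgroup.closure_le _).2 ?_
        rintro _ (⟨b, hb, rfl⟩ | ⟨r, _, rfl⟩)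
        · exact mp_mem_ut ι hb
        · exact up_mem_ut r
      exact hC.of_injective _ _ (Subgroup.inclusion h1) (Subgroup.inclusion_injective h1) hU
  · -- `R = K`
    have hinj : Function.Injective ε := by
      refine (injective_iff_map_eq_zero ε).2 (fun r hr => ?_)
      by_contra hr0
      exact hI ⟨r, hr, hr0⟩
    have hinj2 : Function.Injective (mp ε) := by
      intro a b hab
      apply Units.ext
      ext p q
      apply hinj
      rw [← mp_apply, ← mp_apply, hab]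
    refine hC.of_injective _ _ ((mp ε).subgroupMap Γ) ?_ hQ
    intro a b hab
    exact Subtype.ext (hinj2 (congrArg Subtype.val hab))

/-- the whole group -/
theorem ge_iff (hC : Closed C) (hE : ExtClosed C) (h : IsDeg ι ε deg) :
    C (GE R) ↔ C (M2 K) ∧ C (UT R) := by
  constructor
  · intro hG
    refine ⟨?_, hC.of_injective _ _ (Subgroup.inclusion UT_le)
      (Subgroup.inclusion_injective UT_le) hG⟩
    have h1 : ∀ g : M2 K, mp ι g ∈ GE R := mp_mem_GE
    refine hC.of_injective _ _ ((mp ι).codRestrict (GE R) h1) ?_ hG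
    intro a b hab
    have h2 : mp ι a = mp ι b := congrArg Subtype.val hab
    apply Units.ext
    ext p q
    have h3 : ι (a.1 p q) = ι (b.1 p q) := by
      rw [← mp_apply, ← mp_apply, h2]
    rw [← h.aug (a.1 p q), ← h.aug (b.1 p q), h3]
  · rintro ⟨hK, hU⟩
    exact ge_mem hC hE h hU _ le_rfl (of_sub hC _ hK)

/-- the diagonal entries -/
def dh (ε : R →+* K) : UT R →* Kˣ × Kˣ where
  toFun g := (⟨ε (g.1.1 0 0), ε ((g.1⁻¹).1 0 0), by
      have h1 := congrFun (congrFun (Units.mul_inv g.1) 0) 0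
      rw [Matrix.mul_apply, Fin.sum_univ_two] at h1
      have h2 : (g.1⁻¹).1 1 0 = 0 := g.2.2
      change g.1.1 0 0 * (g.1⁻¹).1 0 0 + g.1.1 0 1 * (g.1⁻¹).1 1 0 = 1 at h1
      rw [h2, mul_zero, add_zero] at h1
      rw [← map_mul, h1, map_one], by
      have h1 := congrFun (congrFun (Units.inv_mul g.1) 0) 0
      rw [Matrix.mul_apply, Fin.sum_univ_two] at h1
      have h2 : (g.1).1 1 0 = 0 := g.2.1
      change (g.1⁻¹).1 0 0 * g.1.1 0 0 + (g.1⁻¹).1 0 1 * (g.1).1 1 0 = 1 at h1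
      rw [h2, mul_zero, add_zero] at h1
      rw [← map_mul, h1, map_one]⟩,
    ⟨ε (g.1.1 1 1), ε ((g.1⁻¹).1 1 1), by
      have h1 := congrFun (congrFun (Units.mul_inv g.1) 1) 1
      rw [Matrix.mul_apply, Fin.sum_univ_two] at h1
      have h2 : (g.1).1 1 0 = 0 := g.2.1
      change g.1.1 1 0 * (g.1⁻¹).1 0 1 + g.1.1 1 1 * (g.1⁻¹).1 1 1 = 1 at h1
      rw [h2, zero_mul, zero_add] at h1
      rw [← map_mul, h1, map_one], by
      have h1 := congrFun (congrFun (Units.inv_mul g.1) 1) 1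
      rw [Matrix.mul_apply, Fin.sum_univ_two] at h1
      have h2 : (g.1⁻¹).1 1 0 = 0 := g.2.2
      change (g.1⁻¹).1 1 0 * g.1.1 0 1 + (g.1⁻¹).1 1 1 * (g.1).1 1 1 = 1 at h1
      rw [h2, zero_mul, zero_add] at h1
      rw [← map_mul, h1, map_one]⟩)
  map_one' := by
    refine Prod.ext (Units.ext ?_) (Units.ext ?_)
    · exact map_one ε
    · exact map_one ε
  map_mul' g h := by
    refine Prod.ext (Units.ext ?_) (Units.ext ?_)
    · change ε ((g.1.1 * h.1.1) 0 0) = ε (g.1.1 0 0) * ε (h.1.1 0 0)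
      have h2 : (h.1).1 1 0 = 0 := h.2.1
      rw [Matrix.mul_apply, Fin.sum_univ_two, h2, mul_zero, add_zero, map_mul]
    · change ε ((g.1.1 * h.1.1) 1 1) = ε (g.1.1 1 1) * ε (h.1.1 1 1)
      have h2 : (g.1).1 1 0 = 0 := g.2.1
      rw [Matrix.mul_apply, Fin.sum_univ_two, h2, zero_mul, zero_add, map_mul]

/-- the unipotent upper triangular matrices -/
def uph : Multiplicative R →* UT R where
  toFun r := ⟨up r.toAdd, up_mem_ut _⟩
  map_one' := Subtype.ext (by
    apply Units.ext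
    change !![1, 0; 0, 1] = (1 : Matrix (Fin 2) (Fin 2) R)
    rw [Matrix.one_fin_two])
  map_mul' r s := Subtype.ext (up_mul _ _)

end

/-- the group of upper triangular matrices is solvable if `K` is commutative -/
theorem ut_sol {K R L : Type} [Field K] [Ring R] [LinearOrder L] {ι : K →+* R} {ε : R →+* K}
    {deg : R → L} (h : IsDeg ι ε deg) : Group.IsSolvable (UT R) := by
  refine Group.isSolvable_of_ker_le_range (uph (R := R)) (dh ε) ?_
  intro g hg
  obtain ⟨u, v, r, h1, h2, h3⟩ := ut_dec g.1 g.2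
  have h4 : dh ε g = 1 := hg
  have hu : u = 1 := by
    apply Units.ext
    have h5 := congrArg (fun w : Kˣ × Kˣ => (w.1 : K)) h4
    have h6 : ε (g.1.1 0 0) = 1 := h5
    rw [h.unit u, h2, h6, map_one]
    rfl
  have hv : v = 1 := by
    apply Units.ext
    have h5 := congrArg (fun w : Kˣ × Kˣ => (w.2 : K)) h4
    have h6 : ε (g.1.1 1 1) = 1 := h5
    rw [h.unit v, h3, h6, map_one]
    rfl
  refine ⟨Multiplicative.ofAdd r, Subtype.ext ?_⟩
  change up r = g.1
  rw [h1, hu, hv]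
  apply Units.ext
  change !![1, r; 0, 1] = !![((1 : Rˣ) : R), 0; 0, ((1 : Rˣ) : R)] * !![1, r; 0, 1]
  rw [Matrix.mul_fin_two]
  simp

end Pool.Agent.Q143.JN
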