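import Pool.Agent.Q143.JN.GE
import Mathlib.Algebra.Polynomial.FieldDivision
import Mathlib.Algebra.EuclideanDomain.Basic

/-!
# Examples: polynomial rings
-/

set_option autoImplicit false
set_option linter.unusedSectionVars false
set_option linter.style.haveILetI false

namespace Pool.Agent.Q143.JN

section

variable {R : Type} [EuclideanDomain R]

theorem ut_dom (g : M2 R) (h : g.1 1 0 = 0) : g ∈ UT R := by
  refine ⟨h, ?_⟩
  have h1 : ((g⁻¹).1 * g.1) 0 0 = 1 := by
    rw [← Units.val_mul, inv_mul_cancel]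
    rfl
  have h2 : ((g⁻¹).1 * g.1) 1 0 = 0 := by
    rw [← Units.val_mul, inv_mul_cancel]
    rfl
  rw [Matrix.mul_apply, Fin.sum_univ_two, h, mul_zero, add_zero] at h1 h2
  rcases mul_eq_zero.1 h2 with h3 | h3
  · exact h3
  · rw [h3, mul_zero] at h1
    exact absurd h1 zero_ne_one

theorem wy_mem : wy R ∈ GE R := by
  have hw : wy R = up 1 * lo (-1) * up 1 := by
    apply Units.ext
    change !![0, 1; -1, 0] = !![1, 1; 0, 1] * !![1, 0; -1, 1] * !![1, 1; 0, 1]
    rw [Matrix.mul_fin_two, Matrix.mul_fin_two]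
    simp
  rw [hw]
  exact mul_mem (mul_mem (Subgroup.subset_closure (Or.inl (Or.inl ⟨_, rfl⟩)))
    (Subgroup.subset_closure (Or.inl (Or.inr ⟨_, rfl⟩))))
    (Subgroup.subset_closure (Or.inl (Or.inl ⟨_, rfl⟩)))

/-- over a Euclidean ring all invertible matrices are products of elementary and diagonal ones -/
theorem ge_top : GE R = ⊤ := by
  refine eq_top_iff.2 (fun g _ => ?_)
  have key : ∀ c a : R, ∀ g : M2 R, g.1 1 0 = c → g.1 0 0 = a → g ∈ GE R := by
    intro c a
    refine EuclideanDomain.GCD.induction (P := fun c a => ∀ g : M2 R, g.1 1 0 = c →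
      g.1 0 0 = a → g ∈ GE R) c a ?_ ?_
    · intro a g hg _
      exact UT_le (ut_dom g hg)
    · intro c a hc ih g hg1 hg0
      have h1 := ih (wy R * dg (-1) 1 * up (-(a / c)) * g) ?_ ?_
      · have h2 : g = (up (-(a / c)))⁻¹ * (dg (-1) 1)⁻¹ * (wy R)⁻¹ *
            (wy R * dg (-1) 1 * up (-(a / c)) * g) := by group
        rw [h2]
        exact mul_mem (mul_mem (mul_mem (inv_mem
          (Subgroup.subset_closure (Or.inl (Or.inl ⟨_, rfl⟩))))
          (inv_mem (Subgroup.subset_closure (Or.inr ⟨_, _, rfl⟩)))) (inv_mem wy_mem)) h1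
      · change ((!![0, 1; -1, 0] * !![((-1 : Rˣ) : R), 0; 0, ((1 : Rˣ) : R)] *
          !![1, -(a / c); 0, 1] * g.1 : Matrix (Fin 2) (Fin 2) R)) 1 0 = a % c
        rw [Matrix.mul_fin_two, Matrix.mul_fin_two, Matrix.eta_fin_two g.1, Matrix.mul_fin_two]
        rw [hg1, hg0]
        have h3 := EuclideanDomain.div_add_mod a c
        simp only [Matrix.of_apply, Matrix.cons_val_one, Matrix.cons_val_zero]
        simp
        linear_combination -h3
      · change ((!![0, 1; -1, 0] * !![((-1 : Rˣ) : R), 0; 0, ((1 : Rˣ) : R)] *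
          !![1, -(a / c); 0, 1] * g.1 : Matrix (Fin 2) (Fin 2) R)) 0 0 = c
        rw [Matrix.mul_fin_two, Matrix.mul_fin_two, Matrix.eta_fin_two g.1, Matrix.mul_fin_two]
        rw [hg1, hg0]
        simp
  exact key _ _ g rfl rfl

end

/-- polynomial rings in any set of variables, with evaluation at any point -/
theorem isDeg_mv (K σ : Type) [Field K] (x : σ → K) :
    IsDeg (MvPolynomial.C : K →+* MvPolynomial σ K) (MvPolynomial.eval x)
      MvPolynomial.totalDegree where
  aug k := MvPolynomial.eval_C k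
  add a b := MvPolynomial.totalDegree_add a b
  const k a := by
    rw [← MvPolynomial.smul_eq_C_mul]
    exact MvPolynomial.totalDegree_smul_le k a
  mul r a hr hr0 ha := by
    rw [MvPolynomial.totalDegree_mul_of_isDomain hr0 ha]
    have h1 : r.totalDegree ≠ 0 := by
      intro h0
      rw [MvPolynomial.totalDegree_eq_zero_iff_eq_C] at h0
      rw [h0] at hr
      rw [MvPolynomial.eval_C] at hr
      rw [hr, map_zero] at h0
      exact hr0 h0
    omega

/-- the polynomial ring in one variable, with evaluation at any point -/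
theorem isDeg_poly (K : Type) [Field K] (x : K) :
    IsDeg (Polynomial.C : K →+* Polynomial K) (Polynomial.evalRingHom x)
      Polynomial.natDegree where
  aug k := by
    rw [Polynomial.coe_evalRingHom, Polynomial.eval_C]
  add a b := Polynomial.natDegree_add_le a b
  const k a := Polynomial.natDegree_C_mul_le k a
  mul r a hr hr0 ha := by
    rw [Polynomial.natDegree_mul hr0 ha]
    have h1 : r.natDegree ≠ 0 := by
      intro h0
      obtain ⟨c, hc⟩ := Polynomial.natDegree_eq_zero.1 h0
      rw [← hc, Polynomial.coe_evalRingHom, Polynomial.eval_C] at hr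
      rw [hr, map_zero] at hc
      exact hr0 hc.symm
    omega

end Pool.Agent.Q143.JN
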