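import Pool.Agent.Q143.MV.PermFJ
import Mathlib.GroupTheory.CoprodI
import Mathlib.GroupTheory.GroupAction.Quotient

/-!
# Groups generated by a group and a normalised family of subgroups in general position

`G0` acts, `B` is a subgroup of `G0` that acts by automorphisms on `U`; the free product of the
copies of `U` indexed by `G0 / B` is acted on by `G0`. A table tennis argument identifies it with a
subgroup of a group that acts on a set.
-/

set_option autoImplicit false
set_option linter.unusedSectionVars false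
set_option linter.style.haveILetI false

namespace Pool.Agent.Q143.JN

open Monoid Pool.Agent.Y462.SS Pool.Agent.Q152.WP Pool.Agent.Q143.AR Pool.Agent.Q143.MV Cardinal

section

variable {G0 U : Type} [Group G0] [Group U] (B : Subgroup G0)

/-- representatives -/
noncomputable def sx (x : G0 ⧸ B) : G0 := Quotient.out x

theorem sx_mk (x : G0 ⧸ B) : ((sx B x : G0) : G0 ⧸ B) = x := Quotient.out_eq' x

theorem bb_mem (q : G0) (x : G0 ⧸ B) : (sx B (q • x))⁻¹ * (q * sx B x) ∈ B := by
  rw [← QuotientGroup.eq, sx_mk]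
  change q • x = q • ((sx B x : G0) : G0 ⧸ B)
  rw [sx_mk]

/-- the element of `B` belonging to `q` and the coset `x` -/
noncomputable def bb (q : G0) (x : G0 ⧸ B) : B := ⟨_, bb_mem B q x⟩

theorem bb_one (x : G0 ⧸ B) : bb B 1 x = 1 := by
  apply Subtype.ext
  change (sx B ((1 : G0) • x))⁻¹ * (1 * sx B x) = 1
  rw [one_smul, one_mul, inv_mul_cancel]

theorem bb_mul (q r : G0) (x : G0 ⧸ B) : bb B (q * r) x = bb B q (r • x) * bb B r x := by
  apply Subtype.ext
  change (sx B ((q * r) • x))⁻¹ * (q * r * sx B x) =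
    ((sx B (q • r • x))⁻¹ * (q * sx B (r • x))) * ((sx B (r • x))⁻¹ * (r * sx B x))
  rw [mul_smul]
  group

/-- the action of `G0` on the free product -/
noncomputable def tw (β : B →* MulAut U) : Twist G0 (G0 ⧸ B) U where
  a := MulAction.toPermHom G0 (G0 ⧸ B)
  c q x := (β (bb B q x)).toMonoidHom
  one x k := by
    rw [bb_one, map_one]
    rfl
  mul q r x k := by
    rw [bb_mul, map_mul]
    rfl

end

section

variable {G G0 U α : Type} [Group G] [Group G0] [Group U] {B : Subgroup G0}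
  {β : B →* MulAut U} {i : G0 →* G} {j : U →* G}

/-- the copies of `U` in `G` -/
noncomputable def uu (B : Subgroup G0) (i : G0 →* G) (j : U →* G) (x : G0 ⧸ B) : U →* G :=
  (MulAut.conj (i (sx B x))).toMonoidHom.comp j

theorem uu_apply (x : G0 ⧸ B) (u : U) :
    uu B i j x u = i (sx B x) * j u * (i (sx B x))⁻¹ := rfl

theorem uu_rel (hβ : ∀ (b : B) u, j (β b u) = i b * j u * (i b)⁻¹) (q : G0) (x : G0 ⧸ B)
    (k : U) : uu B i j ((tw B β).a q x) ((tw B β).c q x k) = i q * uu B i j x k * (i q)⁻¹ := by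
  change uu B i j (q • x) (β (bb B q x) k) = _
  rw [uu_apply, uu_apply, hβ]
  change i (sx B (q • x)) * (i ((sx B (q • x))⁻¹ * (q * sx B x)) * j k *
    (i ((sx B (q • x))⁻¹ * (q * sx B x)))⁻¹) * (i (sx B (q • x)))⁻¹ = _
  simp only [map_mul, map_inv]
  group

/-- table tennis -/
theorem pp_inj (act : G →* Equiv.Perm α) (X0 : Set α) (hX0 : X0.Nonempty)
    (h1 : ∀ g, g ∉ B → ∀ a ∈ X0, act (i g) a ∉ X0)
    (h2 : ∀ g, g ∉ B → ∀ u : U, u ≠ 1 → ∀ a ∈ X0, act (j u) (act (i g) a) ∈ X0)
    (hcard : ∃ x y z : G0 ⧸ B, x ≠ y ∧ x ≠ z ∧ y ≠ z) :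
    Function.Injective (nlift (uu B i j)) := by
  classical
  letI : MulAction G α := MulAction.compHom α act
  have hact : ∀ (g : G) (a : α), g • a = act g a := fun _ _ => rfl
  obtain ⟨x, y, z, hxy, hxz, hyz⟩ := hcard
  haveI : Nontrivial (G0 ⧸ B) := ⟨⟨x, y, hxy⟩⟩
  have hnot : ∀ a b : G0 ⧸ B, a ≠ b → (sx B b)⁻¹ * sx B a ∉ B := by
    intro a b hab h
    rw [← QuotientGroup.eq, sx_mk, sx_mk] at h
    exact hab h.symm
  refine CoprodI.lift_injective_of_ping_pong (H := fun _ : G0 ⧸ B => U)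
    (uu B i j) ?_ (fun x => act (i (sx B x)) '' X0) (fun x => hX0.image _) ?_ ?_
  · left
    have h3 : (3 : Cardinal) = #(Fin 3) := by simp
    rw [h3]
    let s : Fin 3 → G0 ⧸ B := ![x, y, z]
    have hs : Function.Injective s := by
      intro p q hpq
      fin_cases p <;> fin_cases q <;> simp_all [s]
    exact Cardinal.mk_le_of_injective hs
  · intro a b hab
    refine Set.disjoint_left.2 ?_
    rintro _ ⟨p, hp, rfl⟩ ⟨q, hq, hpq⟩
    refine h1 ((sx B b)⁻¹ * sx B a) (hnot a b hab) p hp ?_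
    rw [map_mul, map_inv, map_mul, map_inv]
    change (act (i (sx B b)))⁻¹ (act (i (sx B a)) p) ∈ X0
    rw [← hpq]
    change (act (i (sx B b))).symm (act (i (sx B b)) q) ∈ X0
    rw [Equiv.symm_apply_apply]
    exact hq
  · intro a b hab u hu
    rintro _ ⟨_, ⟨p, hp, rfl⟩, rfl⟩
    refine ⟨act (j u) (act (i ((sx B a)⁻¹ * sx B b)) p), h2 _ (hnot b a hab.symm) u hu p hp, ?_⟩
    change act (i (sx B a)) _ = act (uu B i j a u) (act (i (sx B b)) p)
    rw [uu_apply, map_mul i, map_inv i]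
    simp only [map_mul, map_inv, Equiv.Perm.mul_apply]

/-- the homomorphism from the semidirect product -/
noncomputable def Ph (hβ : ∀ (b : B) u, j (β b u) = i b * j u * (i b)⁻¹) {Q : Type} [Group Q]
    (φ : Q →* G0) : ((tw B β).pull φ).TW →* G :=
  ((tw B β).pull φ).lift (uu B i j) (i.comp φ) (fun q x k => uu_rel hβ (φ q) x k)

theorem Ph_inj (hβ : ∀ (b : B) u, j (β b u) = i b * j u * (i b)⁻¹)
    (hin : Function.Injective (nlift (uu B i j)))
    (f : G →* G0) (hfi : ∀ g, f (i g) = g) (hfj : ∀ u, f (j u) = 1) {Q : Type} [Group Q]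
    (φ : Q →* G0) (hφ : Function.Injective φ) : Function.Injective (Ph hβ φ) := by
  refine (injective_iff_map_eq_one _).2 (fun g hg => ?_)
  have h1 : Ph hβ φ g = nlift (uu B i j) g.left * i (φ g.right) := rfl
  have h2 : ∀ z : NN (G0 ⧸ B) U, f (nlift (uu B i j) z) = 1 := by
    intro z
    induction z using nn_ind with
    | one => rw [map_one, map_one]
    | gen x k =>
      rw [nlift_of, uu_apply, map_mul, map_mul, map_inv, hfj, mul_one, mul_inv_cancel]
    | mul a b ha hb => rw [map_mul, map_mul, ha, hb, one_mul]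
  have h3 : g.right = 1 := by
    apply hφ
    have h4 := congrArg f hg
    rw [h1, map_mul, h2, one_mul, hfi, map_one] at h4
    rw [h4, map_one]
  have h5 : g.left = 1 := by
    apply hin
    rw [h1, h3, map_one, map_one, mul_one] at hg
    rw [hg, map_one]
  exact SemidirectProduct.ext h5 h3

theorem Ph_surj (hβ : ∀ (b : B) u, j (β b u) = i b * j u * (i b)⁻¹)
    (f : G →* G0) (hfi : ∀ g, f (i g) = g) (hfj : ∀ u, f (j u) = 1) (Q : Subgroup G0) (g : G)
    (hg : g ∈ Subgroup.closure (Set.range i ∪ Set.range j)) (hfg : f g ∈ Q) :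
    g ∈ (Ph hβ Q.subtype).range := by
  have h0 : g ∈ (Ph hβ (MonoidHom.id G0)).range := by
    refine (Subgroup.closure_le _).2 ?_ hg
    rintro _ (⟨q, rfl⟩ | ⟨u, rfl⟩)
    · refine ⟨((tw B β).pull (MonoidHom.id G0)).r q, ?_⟩
      exact Twist.lift_r _ _ _ _ _
    · -- `j u` is conjugate to an element of the copy of the coset of 1
      let x : G0 ⧸ B := ((1 : G0) : G0 ⧸ B)
      have h1 : ∀ v, ((Ph hβ (MonoidHom.id G0))
          (((tw B β).pull (MonoidHom.id G0)).e x v)) = uu B i j x v :=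
        fun v => Twist.lift_e _ _ _ _ _ _
      have h2 : i (sx B x) ∈ (Ph hβ (MonoidHom.id G0)).range :=
        ⟨((tw B β).pull (MonoidHom.id G0)).r (sx B x), Twist.lift_r _ _ _ _ _⟩
      have h3 : j u = (i (sx B x))⁻¹ * uu B i j x u * i (sx B x) := by
        rw [uu_apply]
        group
      rw [SetLike.mem_coe, h3]
      exact mul_mem (mul_mem (inv_mem h2) ⟨_, h1 u⟩) h2
  obtain ⟨w, rfl⟩ := h0
  have h1 : Ph hβ (MonoidHom.id G0) w = nlift (uu B i j) w.left * i w.right := rfl
  have h2 : ∀ z : NN (G0 ⧸ B) U, f (nlift (uu B i j) z) = 1 := by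
    intro z
    induction z using nn_ind with
    | one => rw [map_one, map_one]
    | gen x k =>
      rw [nlift_of, uu_apply, map_mul, map_mul, map_inv, hfj, mul_one, mul_inv_cancel]
    | mul a b ha hb => rw [map_mul, map_mul, ha, hb, one_mul]
  rw [h1, map_mul, h2, one_mul, hfi] at hfg
  refine ⟨⟨w.left, ⟨w.right, hfg⟩⟩, ?_⟩
  rw [h1]
  rfl

end

section

variable {C : ∀ (G : Type) [Group G], Prop}
  {G G0 U α : Type} [Group G] [Group G0] [Group U] {B : Subgroup G0}
  {β : B →* MulAut U} {i : G0 →* G} {j : U →* G}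

/-- Main theorem: let `G` act on a set, with a retraction `f` to `G0`, and let the subgroup generated
by `G0` and `U` satisfy the table tennis conditions. A subgroup `Γ` of it is in `C` if `f(Γ)` and the
group generated by `B` and `U` are in `C`. -/
theorem ind_mem (hC : Closed C) (hE : ExtClosed C)
    (hβ : ∀ (b : B) u, j (β b u) = i b * j u * (i b)⁻¹)
    (act : G →* Equiv.Perm α) (X0 : Set α) (hX0 : X0.Nonempty)
    (h1 : ∀ g, g ∉ B → ∀ a ∈ X0, act (i g) a ∉ X0)
    (h2 : ∀ g, g ∉ B → ∀ u : U, u ≠ 1 → ∀ a ∈ X0, act (j u) (act (i g) a) ∈ X0)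
    (hcard : ∃ x y z : G0 ⧸ B, x ≠ y ∧ x ≠ z ∧ y ≠ z)
    (f : G →* G0) (hfi : ∀ g, f (i g) = g) (hfj : ∀ u, f (j u) = 1)
    (hP : C (Subgroup.closure ({g | ∃ b ∈ B, g = i b} ∪ Set.range j)))
    (Γ : Subgroup G) (hΓ : Γ ≤ Subgroup.closure (Set.range i ∪ Set.range j))
    (hQ : C (Γ.map f)) : C Γ := by
  classical
  have hin := pp_inj (i := i) (j := j) act X0 hX0 h1 h2 hcard
  have hPin : Function.Injective (Ph hβ (Γ.map f).subtype) :=
    Ph_inj hβ hin f hfi hfj _ (Subgroup.subtype_injective _)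
  have hTW : C ((tw B β).pull (Γ.map f).subtype).TW := by
    rw [perm_mem _ hC hE]
    refine ⟨hQ, fun x => ?_⟩
    -- conjugate into `P`
    let P : Subgroup G := Subgroup.closure ({g | ∃ b ∈ B, g = i b} ∪ Set.range j)
    have h3 : ∀ w ∈ vx ((tw B β).pull (Γ.map f).subtype) x,
        (i (sx B x))⁻¹ * Ph hβ (Γ.map f).subtype w * i (sx B x) ∈ P := by
      intro w hw
      induction hw using Subgroup.closure_induction with
      | mem w hw =>
        rcases hw with ⟨k, rfl⟩ | ⟨q, hq, rfl⟩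
        · have h4 : Ph hβ (Γ.map f).subtype (((tw B β).pull (Γ.map f).subtype).e x k) =
              uu B i j x k := Twist.lift_e _ _ _ _ _ _
          rw [h4, uu_apply]
          have h5 : (i (sx B x))⁻¹ * (i (sx B x) * j k * (i (sx B x))⁻¹) * i (sx B x) = j k := by
            group
          rw [h5]
          exact Subgroup.subset_closure (Or.inr ⟨k, rfl⟩)
        · have h4 : Ph hβ (Γ.map f).subtype (((tw B β).pull (Γ.map f).subtype).r q) =
              i q.1 := Twist.lift_r _ _ _ _ _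
          rw [h4]
          refine Subgroup.subset_closure (Or.inl ⟨(sx B x)⁻¹ * (q.1 * sx B x), ?_, ?_⟩)
          · have h5 : q.1 • x = x := hq
            have h6 := bb_mem B q.1 x
            rwa [h5] at h6
          · rw [map_mul, map_inv, map_mul, mul_assoc]
      | one =>
        rw [map_one, mul_one, inv_mul_cancel]
        exact one_mem _
      | mul a b _ _ ha hb =>
        have h5 : (i (sx B x))⁻¹ * Ph hβ (Γ.map f).subtype (a * b) * i (sx B x) =
            ((i (sx B x))⁻¹ * Ph hβ (Γ.map f).subtype a * i (sx B x)) *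
            ((i (sx B x))⁻¹ * Ph hβ (Γ.map f).subtype b * i (sx B x)) := by
          rw [map_mul]
          group
        rw [h5]
        exact mul_mem ha hb
      | inv a _ ha =>
        have h5 : (i (sx B x))⁻¹ * Ph hβ (Γ.map f).subtype a⁻¹ * i (sx B x) =
            ((i (sx B x))⁻¹ * Ph hβ (Γ.map f).subtype a * i (sx B x))⁻¹ := by
          rw [map_inv]
          group
        rw [h5]
        exact inv_mem ha
    let F : vx ((tw B β).pull (Γ.map f).subtype) x →* P :=
      { toFun := fun w => ⟨_, h3 w.1 w.2⟩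
        map_one' := Subtype.ext (by
          change (i (sx B x))⁻¹ * Ph hβ (Γ.map f).subtype 1 * i (sx B x) = 1
          rw [map_one, mul_one, inv_mul_cancel])
        map_mul' := fun a b => Subtype.ext (by
          change (i (sx B x))⁻¹ * Ph hβ (Γ.map f).subtype (a.1 * b.1) * i (sx B x) =
            ((i (sx B x))⁻¹ * Ph hβ (Γ.map f).subtype a.1 * i (sx B x)) *
            ((i (sx B x))⁻¹ * Ph hβ (Γ.map f).subtype b.1 * i (sx B x))
          rw [map_mul]
          group) }
    refine hC.of_injective _ _ F ?_ hP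
    intro a b hab
    have h4 : (i (sx B x))⁻¹ * Ph hβ (Γ.map f).subtype a.1 * i (sx B x) =
        (i (sx B x))⁻¹ * Ph hβ (Γ.map f).subtype b.1 * i (sx B x) := congrArg Subtype.val hab
    exact Subtype.ext (hPin (mul_left_cancel (mul_right_cancel h4)))
  -- embed `Γ`
  have h3 : ∀ g : Γ, ∃ w, Ph hβ (Γ.map f).subtype w = g.1 := fun g =>
    Ph_surj hβ f hfi hfj (Γ.map f) g.1 (hΓ g.2) ⟨g.1, g.2, rfl⟩
  choose w hw using h3
  refine hC.of_injective _ _ ({ toFun := w, map_one' := ?_, map_mul' := ?_ } : Γ →*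
    ((tw B β).pull (Γ.map f).subtype).TW) ?_ hTW
  · apply hPin
    rw [hw, map_one]
    rfl
  · intro a b
    apply hPin
    rw [hw, map_mul, hw, hw]
    rfl
  · intro a b hab
    have h4 : w a = w b := hab
    apply Subtype.ext
    rw [← hw a, ← hw b, h4]

/-- the same for a subgroup `U` normalised by `B` -/
theorem ind_mem' (hC : Closed C) (hE : ExtClosed C) (B : Subgroup G0) (i : G0 →* G)
    (U : Subgroup G) (hU : ∀ b ∈ B, ∀ u ∈ U, i b * u * (i b)⁻¹ ∈ U)
    (act : G →* Equiv.Perm α) (X0 : Set α) (hX0 : X0.Nonempty)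
    (h1 : ∀ g, g ∉ B → ∀ a ∈ X0, act (i g) a ∉ X0)
    (h2 : ∀ g, g ∉ B → ∀ u ∈ U, u ≠ 1 → ∀ a ∈ X0, act u (act (i g) a) ∈ X0)
    (hcard : ∃ x y z : G0 ⧸ B, x ≠ y ∧ x ≠ z ∧ y ≠ z)
    (f : G →* G0) (hfi : ∀ g, f (i g) = g) (hfj : ∀ u ∈ U, f u = 1)
    (hP : C (Subgroup.closure ({g | ∃ b ∈ B, g = i b} ∪ (U : Set G))))
    (Γ : Subgroup G) (hΓ : Γ ≤ Subgroup.closure (Set.range i ∪ (U : Set G)))
    (hQ : C (Γ.map f)) : C Γ := by
  let β : B →* MulAut U :=
    { toFun := fun b => 
        { toFun := fun u => ⟨i b * u.1 * (i b)⁻¹, hU b b.2 u.1 u.2⟩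
          invFun := fun u => ⟨i (b⁻¹ : B) * u.1 * (i (b⁻¹ : B))⁻¹, hU _ (b⁻¹).2 u.1 u.2⟩
          left_inv := fun u => Subtype.ext (by
            change i (b⁻¹ : B) * (i b * u.1 * (i b)⁻¹) * (i (b⁻¹ : B))⁻¹ = u.1
            rw [Subgroup.coe_inv, map_inv]
            group)
          right_inv := fun u => Subtype.ext (by
            change i b * (i (b⁻¹ : B) * u.1 * (i (b⁻¹ : B))⁻¹) * (i b)⁻¹ = u.1
            rw [Subgroup.coe_inv, map_inv]
            group)
          map_mul' := fun u v => Subtype.ext (by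
            change i b * (u.1 * v.1) * (i b)⁻¹ = (i b * u.1 * (i b)⁻¹) * (i b * v.1 * (i b)⁻¹)
            group) }
      map_one' := by
        ext u
        change i ((1 : B) : G0) * u.1 * (i ((1 : B) : G0))⁻¹ = u.1
        rw [Subgroup.coe_one, map_one, one_mul, inv_one, mul_one]
      map_mul' := fun b b' => by
        ext u
        change i ((b * b' : B) : G0) * u.1 * (i ((b * b' : B) : G0))⁻¹ =
          i b * (i b' * u.1 * (i b')⁻¹) * (i b)⁻¹
        rw [Subgroup.coe_mul, map_mul]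
        group }
  have hr : Set.range (U.subtype) = (U : Set G) := by
    ext g
    simp
  refine ind_mem (i := i) (j := U.subtype) (β := β) (B := B) hC hE (fun b u => rfl) act X0 hX0 h1
    (fun g hg u hu => h2 g hg u.1 u.2 (fun h => hu (Subtype.ext h))) hcard f hfi
    (fun u => hfj u.1 u.2) ?_ Γ ?_ hQ
  · rw [hr]
    exact hP
  · rw [hr]
    exact hΓ

end

end Pool.Agent.Q143.JN
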