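import Pool.Agent.Q143.JN.GE
import Mathlib.Algebra.MvPolynomial.PDeriv
import Mathlib.Algebra.Polynomial.Derivative

/-!
# Automorphisms of the polynomial ring in two variables
-/

set_option autoImplicit false
set_option linter.unusedSectionVars false
set_option linter.style.haveILetI false

namespace Pool.Agent.Q143.JN

open Monoid Pool.Agent.Y462.SS Pool.Agent.Q152.WP Pool.Agent.Q143.AR Pool.Agent.Q143.MV

/-- the polynomial ring in two variables -/
abbrev P2 (K : Type) [Field K] : Type := MvPolynomial (Fin 2) K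

/-- the automorphisms of the polynomial ring in two variables -/
abbrev A2 (K : Type) [Field K] : Type := P2 K ≃ₐ[K] P2 K

variable {K : Type} [Field K]

theorem ext2 {φ ψ : A2 K} (h : ∀ a, φ (MvPolynomial.X a) = ψ (MvPolynomial.X a)) : φ = ψ := by
  apply AlgEquiv.coe_toAlgHom_injective
  exact MvPolynomial.algHom_ext h

/-- an automorphism given by two inverse substitutions -/
noncomputable def mk2 (s t : Fin 2 → P2 K)
    (h1 : ∀ a, MvPolynomial.aeval s (t a) = MvPolynomial.X a)
    (h2 : ∀ a, MvPolynomial.aeval t (s a) = MvPolynomial.X a) : A2 K :=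
  AlgEquiv.ofAlgHom (MvPolynomial.aeval s) (MvPolynomial.aeval t)
    (MvPolynomial.algHom_ext (fun a => by
      rw [AlgHom.comp_apply, MvPolynomial.aeval_X, h1]
      rfl))
    (MvPolynomial.algHom_ext (fun a => by
      rw [AlgHom.comp_apply, MvPolynomial.aeval_X, h2]
      rfl))

theorem mk2_X (s t : Fin 2 → P2 K) (h1) (h2) (a : Fin 2) :
    mk2 s t h1 h2 (MvPolynomial.X a) = s a := MvPolynomial.aeval_X _ _

/-- the coordinates at the point `x` -/
noncomputable def Y (x : Fin 2 → K) (a : Fin 2) : P2 K := MvPolynomial.X a - MvPolynomial.C (x a)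

theorem X_eq (x : Fin 2 → K) (a : Fin 2) : MvPolynomial.X a = MvPolynomial.C (x a) + Y x a := by
  rw [Y]
  ring

theorem map_Y {S : Type} [CommRing S] [Algebra K S] (h : P2 K →ₐ[K] S) (x : Fin 2 → K)
    (a : Fin 2) : h (Y x a) = h (MvPolynomial.X a) - algebraMap K S (x a) := by
  rw [Y, map_sub]
  congr 1
  exact AlgHom.commutes h (x a)

theorem extY {φ ψ : A2 K} (x : Fin 2 → K) (h : ∀ a, φ (Y x a) = ψ (Y x a)) : φ = ψ := by
  refine ext2 (fun a => ?_)
  have h1 := h a
  have h2 := map_Y (φ : P2 K →ₐ[K] P2 K) x a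
  have h3 := map_Y (ψ : P2 K →ₐ[K] P2 K) x a
  change φ (Y x a) = φ (MvPolynomial.X a) - _ at h2
  change ψ (Y x a) = ψ (MvPolynomial.X a) - _ at h3
  rw [h2, h3] at h1
  exact sub_left_injective h1

/-- translations -/
noncomputable def tr (v : Fin 2 → K) : A2 K :=
  mk2 (fun a => MvPolynomial.X a + MvPolynomial.C (v a))
    (fun a => MvPolynomial.X a - MvPolynomial.C (v a))
    (fun a => by simp [MvPolynomial.algebraMap_eq]) (fun a => by simp [MvPolynomial.algebraMap_eq])

/-- linear combinations of the coordinates -/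
noncomputable def ln (x : Fin 2 → K) (m : Matrix (Fin 2) (Fin 2) K) (a : Fin 2) : P2 K :=
  MvPolynomial.C (m a 0) * Y x 0 + MvPolynomial.C (m a 1) * Y x 1

theorem aeval_ln {S : Type} [CommRing S] [Algebra K S] (h : P2 K →ₐ[K] S) (x : Fin 2 → K)
    (m : Matrix (Fin 2) (Fin 2) K) (a : Fin 2) :
    h (ln x m a) = algebraMap K S (m a 0) * h (Y x 0) + algebraMap K S (m a 1) * h (Y x 1) := by
  rw [ln, map_add, map_mul, map_mul]
  congr 1 <;> congr 1 <;> exact AlgHom.commutes h _

theorem ln_ln (x : Fin 2 → K) (m n : Matrix (Fin 2) (Fin 2) K) (a : Fin 2) :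
    MvPolynomial.C (m a 0) * ln x n 0 + MvPolynomial.C (m a 1) * ln x n 1 = ln x (m * n) a := by
  rw [ln, ln, ln, Matrix.mul_apply, Fin.sum_univ_two, Matrix.mul_apply, Fin.sum_univ_two]
  simp only [map_add, map_mul]
  ring

theorem ln_one (x : Fin 2 → K) (a : Fin 2) : ln x 1 a = Y x a := by
  rw [ln]
  fin_cases a
  · change MvPolynomial.C ((1 : Matrix (Fin 2) (Fin 2) K) 0 0) * Y x 0 +
      MvPolynomial.C ((1 : Matrix (Fin 2) (Fin 2) K) 0 1) * Y x 1 = Y x 0
    rw [Matrix.one_apply_eq, Matrix.one_apply_ne (by decide), map_one, map_zero]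
    ring
  · change MvPolynomial.C ((1 : Matrix (Fin 2) (Fin 2) K) 1 0) * Y x 0 +
      MvPolynomial.C ((1 : Matrix (Fin 2) (Fin 2) K) 1 1) * Y x 1 = Y x 1
    rw [Matrix.one_apply_eq, Matrix.one_apply_ne (by decide), map_one, map_zero]
    ring

theorem aeval_Y_ln (x : Fin 2 → K) (m : Matrix (Fin 2) (Fin 2) K) (a : Fin 2) :
    MvPolynomial.aeval (fun a => MvPolynomial.C (x a) + ln x m a) (Y x a) = ln x m a := by
  rw [map_Y, MvPolynomial.aeval_X, MvPolynomial.algebraMap_eq, add_sub_cancel_left]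

theorem aeval_ln_ln (x : Fin 2 → K) (m n : Matrix (Fin 2) (Fin 2) K) (h : n * m = 1)
    (a : Fin 2) : MvPolynomial.aeval (fun a => MvPolynomial.C (x a) + ln x m a)
      (MvPolynomial.C (x a) + ln x n a) = MvPolynomial.X a := by
  rw [map_add, aeval_ln, aeval_Y_ln, aeval_Y_ln, MvPolynomial.algebraMap_eq, ln_ln, h, ln_one,
    ← MvPolynomial.algebraMap_eq, AlgHom.commutes, MvPolynomial.algebraMap_eq, ← X_eq]

/-- the linear automorphisms at the point `x` -/
noncomputable def li (x : Fin 2 → K) (g : M2 K) : A2 K :=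
  mk2 (fun a => MvPolynomial.C (x a) + ln x (g⁻¹).1 a) (fun a => MvPolynomial.C (x a) + ln x g.1 a)
    (aeval_ln_ln x _ _ (Units.mul_inv g)) (aeval_ln_ln x _ _ (Units.inv_mul g))

theorem li_Y (x : Fin 2 → K) (g : M2 K) (a : Fin 2) : li x g (Y x a) = ln x (g⁻¹).1 a :=
  aeval_Y_ln x _ a

theorem li_mul (x : Fin 2 → K) (g h : M2 K) : li x (g * h) = li x g * li x h := by
  refine extY x (fun a => ?_)
  change _ = li x g (li x h (Y x a))
  rw [li_Y, li_Y]
  have h1 := aeval_ln (li x g : P2 K →ₐ[K] P2 K) x (h⁻¹).1 a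
  change li x g _ = _ * li x g _ + _ * li x g _ at h1
  rw [h1, li_Y, li_Y, MvPolynomial.algebraMap_eq, ln_ln, mul_inv_rev, Units.val_mul]

theorem li_one (x : Fin 2 → K) : li x (1 : M2 K) = 1 := by
  refine extY x (fun a => ?_)
  rw [li_Y, inv_one, Units.val_one, ln_one]
  rfl

/-- the polynomial `q(y - x_1)` -/
noncomputable def qq (x : Fin 2 → K) (q : Polynomial K) : P2 K := Polynomial.aeval (Y x 1) q

theorem map_qq {S : Type} [CommRing S] [Algebra K S] (h : P2 K →ₐ[K] S) (x : Fin 2 → K)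
    (q : Polynomial K) : h (qq x q) = Polynomial.aeval (h (Y x 1)) q := by
  rw [qq, Polynomial.aeval_algHom_apply]

/-- the substitution -/
noncomputable def es (x : Fin 2 → K) (q : Polynomial K) : Fin 2 → P2 K :=
  ![MvPolynomial.X 0 + qq x q, MvPolynomial.X 1]

theorem es_Y1 (x : Fin 2 → K) (q : Polynomial K) :
    MvPolynomial.aeval (es x q) (Y x 1) = Y x 1 := by
  rw [map_Y, MvPolynomial.aeval_X, MvPolynomial.algebraMap_eq]
  rfl

theorem es_es (x : Fin 2 → K) (q r : Polynomial K) (h : q + r = 0) (a : Fin 2) :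
    MvPolynomial.aeval (es x q) (es x r a) = MvPolynomial.X a := by
  fin_cases a
  · change MvPolynomial.aeval (es x q) (MvPolynomial.X 0 + qq x r) = MvPolynomial.X 0
    rw [map_add, MvPolynomial.aeval_X, map_qq, es_Y1]
    change MvPolynomial.X 0 + qq x q + qq x r = _
    rw [add_assoc, qq, qq, ← map_add, h, map_zero, add_zero]
  · change MvPolynomial.aeval (es x q) (MvPolynomial.X 1) = MvPolynomial.X 1
    rw [MvPolynomial.aeval_X]
    rfl

/-- the elementary automorphisms -/
noncomputable def el (x : Fin 2 → K) (q : Polynomial K) : A2 K :=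
  mk2 (es x q) (es x (-q)) (es_es x q (-q) (add_neg_cancel q)) (es_es x (-q) q (neg_add_cancel q))

theorem el_Y1 (x : Fin 2 → K) (q : Polynomial K) : el x q (Y x 1) = Y x 1 := es_Y1 x q

theorem el_Y0 (x : Fin 2 → K) (q : Polynomial K) : el x q (Y x 0) = Y x 0 + qq x q := by
  change MvPolynomial.aeval (es x q) (Y x 0) = _
  rw [map_Y, MvPolynomial.aeval_X, MvPolynomial.algebraMap_eq, Y]
  change MvPolynomial.X 0 + qq x q - _ = _
  ring

theorem el_add (x : Fin 2 → K) (q r : Polynomial K) : el x (q + r) = el x q * el x r := by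
  refine extY x (fun a => ?_)
  change _ = el x q (el x r (Y x a))
  fin_cases a
  · change el x (q + r) (Y x 0) = el x q (el x r (Y x 0))
    rw [el_Y0, el_Y0, map_add, el_Y0]
    have h1 := map_qq (el x q : P2 K →ₐ[K] P2 K) x r
    change el x q (qq x r) = Polynomial.aeval (el x q (Y x 1)) r at h1
    rw [h1, el_Y1, add_assoc, qq, map_add]
    rfl
  · change el x (q + r) (Y x 1) = el x q (el x r (Y x 1))
    rw [el_Y1, el_Y1, el_Y1]

theorem el_zero (x : Fin 2 → K) : el x (0 : Polynomial K) = 1 := by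
  refine extY x (fun a => ?_)
  fin_cases a
  · change el x 0 (Y x 0) = Y x 0
    rw [el_Y0, qq, map_zero, add_zero]
  · exact el_Y1 x 0

variable (K) in
/-- the group of tame automorphisms, generated by the linear, the elementary automorphisms and the
translations -/
noncomputable def Tame : Subgroup (A2 K) :=
  Subgroup.closure (Set.range (li (0 : Fin 2 → K)) ∪ Set.range (el (0 : Fin 2 → K)) ∪ Set.range tr)

/-- the automorphisms that fix the point `x` -/
def Stb (x : Fin 2 → K) : Subgroup (A2 K) where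
  carrier := {φ | ∀ p, MvPolynomial.eval x (φ p) = MvPolynomial.eval x p}
  one_mem' := fun p => rfl
  mul_mem' := fun {φ ψ} hφ hψ p => by
    change MvPolynomial.eval x (φ (ψ p)) = _
    rw [hφ, hψ]
  inv_mem' := fun {φ} hφ p => by
    have h1 := hφ (φ⁻¹ p)
    have h2 : φ (φ⁻¹ p) = p := by
      change (φ * φ⁻¹) p = p
      rw [mul_inv_cancel]
      rfl
    rw [← h1, h2]

theorem mem_Stb {x : Fin 2 → K} {φ : A2 K}
    (h : ∀ a, MvPolynomial.eval x (φ (MvPolynomial.X a)) = x a) : φ ∈ Stb x := by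
  intro p
  have h1 : ((MvPolynomial.aeval x : P2 K →ₐ[K] K).comp (φ : P2 K →ₐ[K] P2 K)) =
      MvPolynomial.aeval x := by
    refine MvPolynomial.algHom_ext (fun a => ?_)
    rw [AlgHom.comp_apply, MvPolynomial.aeval_X]
    exact h a
  exact DFunLike.congr_fun h1 p

theorem mem_StbY {x : Fin 2 → K} {φ : A2 K}
    (h : ∀ a, MvPolynomial.eval x (φ (Y x a)) = 0) : φ ∈ Stb x := by
  refine mem_Stb (fun a => ?_)
  have h1 := h a
  have h2 := map_Y (φ : P2 K →ₐ[K] P2 K) x a
  change φ (Y x a) = φ (MvPolynomial.X a) - _ at h2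
  rw [h2, map_sub, MvPolynomial.algebraMap_eq, MvPolynomial.eval_C, sub_eq_zero] at h1
  exact h1

theorem eval_Y (x : Fin 2 → K) (a : Fin 2) : MvPolynomial.eval x (Y x a) = 0 := by
  rw [Y, map_sub, MvPolynomial.eval_X, MvPolynomial.eval_C, sub_self]

theorem li_mem (x : Fin 2 → K) (g : M2 K) : li x g ∈ Stb x := by
  refine mem_StbY (fun a => ?_)
  rw [li_Y, ln, map_add, map_mul, map_mul, eval_Y, eval_Y, mul_zero, mul_zero, add_zero]

theorem eval_qq (x : Fin 2 → K) (q : Polynomial K) :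
    MvPolynomial.eval x (qq x q) = q.coeff 0 := by
  have h1 := map_qq (MvPolynomial.aeval x : P2 K →ₐ[K] K) x q
  change MvPolynomial.eval x (qq x q) = Polynomial.aeval (MvPolynomial.eval x (Y x 1)) q at h1
  rw [h1, eval_Y, Polynomial.coeff_zero_eq_aeval_zero]

theorem el_mem (x : Fin 2 → K) (q : Polynomial K) (h : q.coeff 0 = 0) : el x q ∈ Stb x := by
  refine mem_StbY (fun a => ?_)
  fin_cases a
  · change MvPolynomial.eval x (el x q (Y x 0)) = 0
    rw [el_Y0, map_add, eval_Y, eval_qq, h, add_zero]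
  · change MvPolynomial.eval x (el x q (Y x 1)) = 0
    rw [el_Y1, eval_Y]

/-! ## the linear part -/

/-- the Jacobian matrix at `x` -/
noncomputable def J (x : Fin 2 → K) (φ : A2 K) : Matrix (Fin 2) (Fin 2) K :=
  Matrix.of fun a b => MvPolynomial.eval x (MvPolynomial.pderiv b (φ (MvPolynomial.X a)))

theorem J_apply (x : Fin 2 → K) (φ : A2 K) (a b : Fin 2) :
    J x φ a b = MvPolynomial.eval x (MvPolynomial.pderiv b (φ (MvPolynomial.X a))) := rfl

theorem chain {x : Fin 2 → K} {φ : A2 K} (hφ : φ ∈ Stb x) (p : P2 K) (b : Fin 2) :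
    MvPolynomial.eval x (MvPolynomial.pderiv b (φ p)) =
      ∑ c, MvPolynomial.eval x (MvPolynomial.pderiv c p) * J x φ c b := by
  induction p using MvPolynomial.induction_on with
  | C k =>
    have h1 : φ (MvPolynomial.C k) = MvPolynomial.C k := AlgEquiv.commutes φ k
    rw [h1, MvPolynomial.pderiv_C, map_zero]
    symm
    refine Finset.sum_eq_zero (fun c _ => ?_)
    rw [MvPolynomial.pderiv_C, map_zero, zero_mul]
  | add p q hp hq =>
    rw [map_add, map_add, map_add, hp, hq, ← Finset.sum_add_distrib]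
    refine Finset.sum_congr rfl (fun c _ => ?_)
    rw [map_add, map_add, add_mul]
  | mul_X p n hp =>
    rw [map_mul, Derivation.leibniz, map_add, smul_eq_mul, smul_eq_mul, map_mul, map_mul, hφ,
      hφ, hp, Fin.sum_univ_two, Fin.sum_univ_two]
    rw [Derivation.leibniz, Derivation.leibniz]
    simp only [smul_eq_mul, map_add, map_mul, MvPolynomial.eval_X, ← J_apply]
    fin_cases n
    · simp [MvPolynomial.pderiv_X]
      ring
    · simp [MvPolynomial.pderiv_X]
      ring

theorem J_mul {x : Fin 2 → K} {φ : A2 K} (hφ : φ ∈ Stb x) (ψ : A2 K) :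
    J x (φ * ψ) = J x ψ * J x φ := by
  ext a b
  rw [Matrix.mul_apply, J_apply]
  change MvPolynomial.eval x (MvPolynomial.pderiv b (φ (ψ (MvPolynomial.X a)))) = _
  rw [chain hφ]
  rfl

theorem J_one (x : Fin 2 → K) : J x (1 : A2 K) = 1 := by
  ext a b
  rw [J_apply]
  change MvPolynomial.eval x (MvPolynomial.pderiv b (MvPolynomial.X a)) = _
  rw [MvPolynomial.pderiv_X, Matrix.one_apply]
  by_cases h : a = b
  · subst h
    simp
  · simp [h]

/-- the linear part at the fixed point `x` -/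
noncomputable def lin (x : Fin 2 → K) : Stb x →* M2 K where
  toFun φ := ⟨J x (φ⁻¹ : Stb x).1, J x φ.1, by
    rw [← J_mul φ.2, Subgroup.coe_inv, mul_inv_cancel, J_one], by
    rw [← J_mul (φ⁻¹).2, Subgroup.coe_inv, inv_mul_cancel, J_one]⟩
  map_one' := by
    apply Units.ext
    change J x ((1 : Stb x)⁻¹ : Stb x).1 = 1
    rw [inv_one]
    exact J_one x
  map_mul' φ ψ := by
    apply Units.ext
    change J x ((φ * ψ)⁻¹ : Stb x).1 = J x (φ⁻¹ : Stb x).1 * J x (ψ⁻¹ : Stb x).1
    rw [← J_mul (ψ⁻¹).2, mul_inv_rev]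
    rfl

end Pool.Agent.Q143.JN
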