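import Pool.Agent.Q143.JN.PA
import Pool.Agent.Q143.JN.GEx

/-!
# Tame automorphisms of the plane that fix a point: membership
-/

set_option autoImplicit false
set_option linter.unusedSectionVars false
set_option linter.style.haveILetI false

namespace Pool.Agent.Q143.JN

open Monoid Pool.Agent.Y462.SS Pool.Agent.Q152.WP Pool.Agent.Q143.AR Pool.Agent.Q143.MV

variable {K : Type} [Field K]

/-- the linear automorphisms in the stabilizer -/
noncomputable def iS (x : Fin 2 → K) : M2 K →* Stb x where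
  toFun g := ⟨li x g, li_mem x g⟩
  map_one' := Subtype.ext (li_one x)
  map_mul' g h := Subtype.ext (li_mul x g h)

theorem li_inv (x : Fin 2 → K) (g : M2 K) : (li x g)⁻¹ = li x g⁻¹ := by
  rw [inv_eq_iff_mul_eq_one, ← li_mul, mul_inv_cancel, li_one]

theorem el_inv (x : Fin 2 → K) (q : Polynomial K) : (el x q)⁻¹ = el x (-q) := by
  rw [inv_eq_iff_mul_eq_one, ← el_add, add_neg_cancel, el_zero]

/-- the elementary automorphisms tangent to the identity -/
noncomputable def US (x : Fin 2 → K) : Subgroup (Stb x) where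
  carrier := {φ | ∃ q : Polynomial K, q.coeff 0 = 0 ∧ q.coeff 1 = 0 ∧ φ.1 = el x q}
  one_mem' := ⟨0, Polynomial.coeff_zero _, Polynomial.coeff_zero _, (el_zero x).symm⟩
  mul_mem' := by
    rintro φ ψ ⟨q, h0, h1, h2⟩ ⟨r, k0, k1, k2⟩
    refine ⟨q + r, by rw [Polynomial.coeff_add, h0, k0, add_zero],
      by rw [Polynomial.coeff_add, h1, k1, add_zero], ?_⟩
    rw [el_add, ← h2, ← k2]
    rfl
  inv_mem' := by
    rintro φ ⟨q, h0, h1, h2⟩
    refine ⟨-q, by rw [Polynomial.coeff_neg, h0, neg_zero],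
      by rw [Polynomial.coeff_neg, h1, neg_zero], ?_⟩
    rw [← el_inv, ← h2]
    rfl

theorem J_li (x : Fin 2 → K) (g : M2 K) : J x (li x g) = (g⁻¹).1 := by
  ext a b
  rw [J_apply, X_eq x a, map_add]
  have h1 : li x g (MvPolynomial.C (x a)) = MvPolynomial.C (x a) := AlgEquiv.commutes _ _
  rw [h1, li_Y, map_add, MvPolynomial.pderiv_C, zero_add, ln, map_add, Derivation.leibniz,
    Derivation.leibniz, MvPolynomial.pderiv_C, MvPolynomial.pderiv_C, Y, Y, map_sub, map_sub,
    MvPolynomial.pderiv_C, MvPolynomial.pderiv_C, MvPolynomial.pderiv_X, MvPolynomial.pderiv_X]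
  fin_cases b
  · simp
  · simp

theorem lin_iS (x : Fin 2 → K) (g : M2 K) : lin x (iS x g) = g := by
  apply Units.ext
  change J x ((iS x g)⁻¹ : Stb x).1 = g.1
  have h1 : ((iS x g)⁻¹ : Stb x).1 = li x g⁻¹ := li_inv x g
  rw [h1, J_li, inv_inv]

theorem pderiv_qq (x : Fin 2 → K) (q : Polynomial K) (b : Fin 2) :
    MvPolynomial.eval x (MvPolynomial.pderiv b (qq x q)) =
      q.coeff 1 * MvPolynomial.eval x (MvPolynomial.pderiv b (MvPolynomial.X 1)) := by
  have h1 : MvPolynomial.pderiv b (qq x q) =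
      Polynomial.aeval (Y x 1) (Polynomial.derivative q) * MvPolynomial.pderiv b (Y x 1) := by
    rw [qq, ← smul_eq_mul]
    exact Derivation.map_aeval _ _ _
  rw [h1, map_mul]
  have h2 := eval_qq x (Polynomial.derivative q)
  rw [qq] at h2
  rw [h2, Polynomial.coeff_derivative, Y, map_sub, MvPolynomial.pderiv_C, sub_zero]
  simp

theorem J_el (x : Fin 2 → K) (q : Polynomial K) (h : q.coeff 1 = 0) : J x (el x q) = 1 := by
  ext a b
  rw [J_apply, X_eq x a, map_add]
  have h1 : el x q (MvPolynomial.C (x a)) = MvPolynomial.C (x a) := AlgEquiv.commutes _ _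
  rw [h1, map_add, MvPolynomial.pderiv_C, zero_add]
  fin_cases a
  · change MvPolynomial.eval x (MvPolynomial.pderiv b (el x q (Y x 0))) =
      (1 : Matrix (Fin 2) (Fin 2) K) 0 b
    rw [el_Y0, map_add, map_add, pderiv_qq, h, zero_mul, add_zero, Y, map_sub,
      MvPolynomial.pderiv_C, sub_zero, MvPolynomial.pderiv_X, Matrix.one_apply]
    by_cases hb : (0 : Fin 2) = b
    · subst hb
      simp
    · simp [hb]
  · change MvPolynomial.eval x (MvPolynomial.pderiv b (el x q (Y x 1))) =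
      (1 : Matrix (Fin 2) (Fin 2) K) 1 b
    rw [el_Y1, Y, map_sub, MvPolynomial.pderiv_C, sub_zero, MvPolynomial.pderiv_X,
      Matrix.one_apply]
    by_cases hb : (1 : Fin 2) = b
    · subst hb
      simp
    · simp [hb]

theorem lin_US (x : Fin 2 → K) (u : Stb x) (hu : u ∈ US x) : lin x u = 1 := by
  obtain ⟨q, h0, h1, h2⟩ := (US x).inv_mem hu
  apply Units.ext
  change J x (u⁻¹ : Stb x).1 = 1
  rw [h2, J_el x q h1]

/-- the action on the curves -/
noncomputable def cv : A2 K →* Equiv.Perm (P2 K →ₐ[K] Polynomial K) where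
  toFun φ :=
    { toFun := fun h => h.comp ((φ⁻¹ : A2 K) : P2 K →ₐ[K] P2 K)
      invFun := fun h => h.comp (φ : P2 K →ₐ[K] P2 K)
      left_inv := fun h => by
        apply AlgHom.ext
        intro p
        change h (φ⁻¹ (φ p)) = h p
        have h2 : φ⁻¹ (φ p) = p := by
          change (φ⁻¹ * φ) p = p
          rw [inv_mul_cancel]
          rfl
        rw [h2]
      right_inv := fun h => by
        apply AlgHom.ext
        intro p
        change h (φ (φ⁻¹ p)) = h p
        have h2 : φ (φ⁻¹ p) = p := by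
          change (φ * φ⁻¹) p = p
          rw [mul_inv_cancel]
          rfl
        rw [h2] }
  map_one' := by
    apply Equiv.ext
    intro h
    apply AlgHom.ext
    intro p
    change h ((1 : A2 K)⁻¹ p) = h p
    rw [inv_one]
    rfl
  map_mul' φ ψ := by
    apply Equiv.ext
    intro h
    apply AlgHom.ext
    intro p
    change h ((φ * ψ)⁻¹ p) = h (ψ⁻¹ (φ⁻¹ p))
    rw [mul_inv_rev]
    rfl

theorem cv_apply (φ : A2 K) (h : P2 K →ₐ[K] Polynomial K) (p : P2 K) :
    cv φ h p = h (φ⁻¹ p) := rfl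

theorem cv_li (x : Fin 2 → K) (g : M2 K) (h : P2 K →ₐ[K] Polynomial K) (a : Fin 2) :
    cv (li x g) h (Y x a) =
      Polynomial.C (g.1 a 0) * h (Y x 0) + Polynomial.C (g.1 a 1) * h (Y x 1) := by
  rw [cv_apply, li_inv, li_Y, inv_inv, aeval_ln]
  rfl

theorem cv_el0 (x : Fin 2 → K) (q : Polynomial K) (h : P2 K →ₐ[K] Polynomial K) :
    cv (el x q) h (Y x 0) = h (Y x 0) + (-q).comp (h (Y x 1)) := by
  rw [cv_apply, el_inv, el_Y0, map_add, map_qq]
  rfl

theorem cv_el1 (x : Fin 2 → K) (q : Polynomial K) (h : P2 K →ₐ[K] Polynomial K) :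
    cv (el x q) h (Y x 1) = h (Y x 1) := by
  rw [cv_apply, el_inv, el_Y1]

/-- the set for the table tennis argument -/
def XP (x : Fin 2 → K) : Set (P2 K →ₐ[K] Polynomial K) :=
  {h | (h (Y x 1)).natDegree < (h (Y x 0)).natDegree}

theorem tennisP (x : Fin 2 → K) (g : M2 K) (hg : g ∉ UT K) (h : P2 K →ₐ[K] Polynomial K)
    (hh : h ∈ XP x) :
    (cv (li x g) h (Y x 1)).natDegree = (h (Y x 0)).natDegree ∧
      (cv (li x g) h (Y x 0)).natDegree ≤ (h (Y x 0)).natDegree := by
  have hd := isDeg_poly K 0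
  rw [ut_iff] at hg
  have hv' : (h (Y x 1)).natDegree < (h (Y x 0)).natDegree := hh
  refine ⟨?_, ?_⟩
  · rw [cv_li, hd.add_eq]
    · exact hd.const' hg _
    · rw [hd.const' hg]
      exact (hd.const _ _).trans_lt hv'
  · rw [cv_li]
    exact (hd.add _ _).trans (max_le (hd.const _ _) ((hd.const _ _).trans hv'.le))

theorem tennisP2 (x : Fin 2 → K) (g : M2 K) (hg : g ∉ UT K) (q : Polynomial K)
    (h0 : q.coeff 0 = 0) (h1 : q.coeff 1 = 0) (hq : q ≠ 0)
    (h : P2 K →ₐ[K] Polynomial K) (hh : h ∈ XP x) :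
    cv (el x q) (cv (li x g) h) ∈ XP x := by
  have hd := isDeg_poly K 0
  obtain ⟨h2, h3⟩ := tennisP x g hg h hh
  have hv' : (h (Y x 1)).natDegree < (h (Y x 0)).natDegree := hh
  change (cv (el x q) (cv (li x g) h) (Y x 1)).natDegree <
    (cv (el x q) (cv (li x g) h) (Y x 0)).natDegree
  rw [cv_el1, cv_el0]
  have h4 : 2 ≤ (-q).natDegree := by
    rw [Polynomial.natDegree_neg]
    by_contra h5
    have h6 : q.natDegree ≤ 1 := by omega
    apply hq
    rw [Polynomial.eq_X_add_C_of_natDegree_le_one h6, h0, h1, map_zero, zero_mul, zero_add]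
  have h5 : (cv (li x g) h (Y x 1)).natDegree <
      ((-q).comp (cv (li x g) h (Y x 1))).natDegree := by
    rw [Polynomial.natDegree_comp, h2]
    nlinarith
  rw [hd.add_eq']
  · exact h5
  · rw [h2] at h5
    exact h3.trans_lt h5

end Pool.Agent.Q143.JN
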