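import Pool.Agent.Q143.JN.PA2

/-!
# Tame automorphisms of the plane that fix a point: membership
-/

set_option autoImplicit false
set_option linter.unusedSectionVars false
set_option linter.style.haveILetI false

namespace Pool.Agent.Q143.JN

open Monoid Pool.Agent.Y462.SS Pool.Agent.Q152.WP Pool.Agent.Q143.AR Pool.Agent.Q143.MV

variable {K : Type} [Field K]

theorem conj_el (x : Fin 2 → K) (b : M2 K) (hb : b ∈ UT K) (q : Polynomial K) :
    li x b * el x q * (li x b)⁻¹ =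
      el x (Polynomial.C (b.1 0 0) * q.comp (Polynomial.C ((b⁻¹).1 1 1) * Polynomial.X)) := by
  have hb1 : b.1 1 0 = 0 := hb.1
  have hb2 : (b⁻¹).1 1 0 = 0 := hb.2
  have h0 : ∀ a, (li x b * el x q * (li x b)⁻¹) (Y x a) =
      Y x a + MvPolynomial.C (b.1 a 0) * Polynomial.aeval (ln x (b⁻¹).1 1) q := by
    intro a
    rw [li_inv]
    change li x b (el x q (li x b⁻¹ (Y x a))) = _
    rw [li_Y, inv_inv]
    have h1 := aeval_ln (el x q : P2 K →ₐ[K] P2 K) x b.1 a
    change el x q _ = _ * el x q _ + _ * el x q _ at h1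
    rw [h1, el_Y0, el_Y1, MvPolynomial.algebraMap_eq, map_add, map_mul, map_mul, map_add]
    have h2 : ∀ k, li x b (MvPolynomial.C k) = MvPolynomial.C k := fun k => AlgEquiv.commutes _ _
    have h3 := map_qq (li x b : P2 K →ₐ[K] P2 K) x q
    change li x b (qq x q) = Polynomial.aeval (li x b (Y x 1)) q at h3
    rw [h2, h2, h3, li_Y, li_Y]
    have h4 := ln_ln x b.1 (b⁻¹).1 a
    rw [Units.mul_inv, ln_one] at h4
    rw [← h4]
    ring
  refine extY x (fun a => ?_)
  rw [h0]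
  fin_cases a
  · change Y x 0 + _ = el x _ (Y x 0)
    rw [el_Y0, qq, map_mul, Polynomial.aeval_C, MvPolynomial.algebraMap_eq,
      Polynomial.aeval_comp, map_mul, Polynomial.aeval_C, Polynomial.aeval_X,
      MvPolynomial.algebraMap_eq]
    congr 3
    rw [ln, hb2, map_zero, zero_mul, zero_add]
  · change Y x 1 + MvPolynomial.C (b.1 1 0) * _ = el x _ (Y x 1)
    rw [el_Y1, hb1, map_zero, zero_mul, add_zero]

theorem conj_US (x : Fin 2 → K) (b : M2 K) (hb : b ∈ UT K) (u : Stb x) (hu : u ∈ US x) :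
    iS x b * u * (iS x b)⁻¹ ∈ US x := by
  obtain ⟨q, h0, h1, h2⟩ := hu
  refine ⟨Polynomial.C (b.1 0 0) * q.comp (Polynomial.C ((b⁻¹).1 1 1) * Polynomial.X), ?_, ?_, ?_⟩
  · rw [Polynomial.coeff_C_mul, Polynomial.comp_C_mul_X_coeff, h0, zero_mul, mul_zero]
  · rw [Polynomial.coeff_C_mul, Polynomial.comp_C_mul_X_coeff, h1, zero_mul, mul_zero]
  · change li x b * u.1 * (li x b)⁻¹ = _
    rw [h2, conj_el x b hb q]

/-- the group generated by the triangular linear automorphisms and the elementary ones -/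
noncomputable def PP (x : Fin 2 → K) : Subgroup (Stb x) :=
  Subgroup.closure ({g | ∃ b ∈ UT K, g = iS x b} ∪ (US x : Set (Stb x)))

theorem PP_dec (x : Fin 2 → K) (p : Stb x) (hp : p ∈ PP x) :
    ∃ u ∈ US x, ∃ b ∈ UT K, p = u * iS x b := by
  induction hp using Subgroup.closure_induction with
  | mem p hp =>
    rcases hp with ⟨b, hb, rfl⟩ | hp
    · exact ⟨1, one_mem _, b, hb, (one_mul _).symm⟩
    · exact ⟨p, hp, 1, one_mem _, by rw [map_one, mul_one]⟩
  | one => exact ⟨1, one_mem _, 1, one_mem _, by rw [map_one, mul_one]⟩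
  | mul p p' _ _ h h' =>
    obtain ⟨u, hu, b, hb, rfl⟩ := h
    obtain ⟨u', hu', b', hb', rfl⟩ := h'
    refine ⟨u * (iS x b * u' * (iS x b)⁻¹), mul_mem hu (conj_US x b hb u' hu'), b * b',
      mul_mem hb hb', ?_⟩
    rw [map_mul]
    group
  | inv p _ h =>
    obtain ⟨u, hu, b, hb, rfl⟩ := h
    refine ⟨iS x b⁻¹ * u⁻¹ * (iS x b⁻¹)⁻¹, conj_US x b⁻¹ (inv_mem hb) _ (inv_mem hu), b⁻¹,
      inv_mem hb, ?_⟩
    rw [map_inv]
    group

theorem US_comm (x : Fin 2 → K) (u v : Stb x) (hu : u ∈ US x) (hv : v ∈ US x) :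
    u * v = v * u := by
  obtain ⟨q, -, -, h2⟩ := hu
  obtain ⟨r, -, -, k2⟩ := hv
  apply Subtype.ext
  change u.1 * v.1 = v.1 * u.1
  rw [h2, k2, ← el_add, ← el_add, add_comm]

theorem PP_sol (x : Fin 2 → K) : Group.IsSolvable (PP x) := by
  have hd : IsDeg (RingHom.id K) (RingHom.id K) (fun _ : K => (0 : ℕ)) :=
    { aug := fun _ => rfl
      add := fun _ _ => le_max_left _ _
      const := fun _ _ => le_rfl
      mul := fun r a h1 h2 _ => absurd h1 h2 }
  haveI h1 : Group.IsSolvable (UT K) := ut_sol hd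
  have hle : US x ≤ PP x := fun u hu => Subgroup.subset_closure (Or.inr hu)
  haveI h2 : Group.IsSolvable (US x) := by
    letI : CommGroup (US x) :=
      { mul_comm := fun a b => Subtype.ext (US_comm x a.1 b.1 a.2 b.2) }
    infer_instance
  have hlin : ∀ p ∈ PP x, lin x p ∈ UT K := by
    intro p hp
    obtain ⟨u, hu, b, hb, rfl⟩ := PP_dec x p hp
    rw [map_mul, lin_US x u hu, lin_iS, one_mul]
    exact hb
  let F : PP x →* UT K :=
    { toFun := fun p => ⟨lin x p.1, hlin p.1 p.2⟩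
      map_one' := Subtype.ext (map_one (lin x))
      map_mul' := fun p q => Subtype.ext (map_mul (lin x) p.1 q.1) }
  refine Group.isSolvable_of_ker_le_range (Subgroup.inclusion hle) F ?_
  intro p hp
  obtain ⟨u, hu, b, hb, hpu⟩ := PP_dec x p.1 p.2
  have h3 : lin x p.1 = 1 := congrArg Subtype.val hp
  rw [hpu, map_mul, lin_US x u hu, lin_iS, one_mul] at h3
  refine ⟨⟨u, hu⟩, Subtype.ext ?_⟩
  change u = p.1
  rw [hpu, h3, map_one, mul_one]

/-- the group generated by the linear and the elementary automorphisms at `x` -/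
noncomputable def HH (x : Fin 2 → K) : Subgroup (Stb x) :=
  Subgroup.closure (Set.range (iS x) ∪ (US x : Set (Stb x)))

theorem pa_mem {C : ∀ (G : Type) [Group G], Prop} (hC : Closed C) (hE : ExtClosed C)
    (hS : ∀ (G : Type) [Group G], Group.IsSolvable G → C G) (x : Fin 2 → K)
    (Γ : Subgroup (Stb x)) (hΓ : Γ ≤ HH x) (hQ : C (Γ.map (lin x))) : C Γ := by
  refine ind_mem' hC hE (UT K) (iS x) (US x) (fun b hb u hu => conj_US x b hb u hu)
    (cv.comp (Stb x).subtype) (XP x)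
    ⟨MvPolynomial.aeval ![Polynomial.X, 0], ?_⟩ ?_ ?_ (three K) (lin x) (lin_iS x)
    (fun u hu => lin_US x u hu) (hS _ (PP_sol x)) Γ hΓ hQ
  · change (MvPolynomial.aeval ![Polynomial.X, 0] (Y x 1)).natDegree <
      (MvPolynomial.aeval ![Polynomial.X, 0] (Y x 0)).natDegree
    rw [map_Y, map_Y, MvPolynomial.aeval_X, MvPolynomial.aeval_X]
    change ((0 : Polynomial K) - Polynomial.C (x 1)).natDegree <
      (Polynomial.X - Polynomial.C (x 0)).natDegree
    rw [Polynomial.natDegree_X_sub_C, zero_sub, Polynomial.natDegree_neg, Polynomial.natDegree_C]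
    exact zero_lt_one
  · intro g hg h hh hh'
    obtain ⟨h1, h2⟩ := tennisP x g hg h hh
    have h3 : (cv (li x g) h (Y x 1)).natDegree < (cv (li x g) h (Y x 0)).natDegree := hh'
    rw [h1] at h3
    exact absurd h2 (not_le.2 h3)
  · rintro g hg u ⟨q, h0, h1, h2⟩ hu1 h hh
    change cv u.1 (cv (li x g) h) ∈ XP x
    rw [h2]
    refine tennisP2 x g hg q h0 h1 ?_ h hh
    rintro rfl
    apply hu1
    apply Subtype.ext
    rw [h2, el_zero]
    rfl

/-! ## tame automorphisms fixing a point -/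

/-- the subgroup in the group of all automorphisms -/
noncomputable def HA (x : Fin 2 → K) : Subgroup (A2 K) := (HH x).map (Stb x).subtype

theorem li_HA (x : Fin 2 → K) (g : M2 K) : li x g ∈ HA x :=
  ⟨iS x g, Subgroup.subset_closure (Or.inl ⟨g, rfl⟩), rfl⟩

theorem el_HA (x : Fin 2 → K) (q : Polynomial K) (h0 : q.coeff 0 = 0) (h1 : q.coeff 1 = 0) :
    el x q ∈ HA x :=
  ⟨⟨el x q, el_mem x q h0⟩, Subgroup.subset_closure (Or.inr ⟨q, h0, h1, rfl⟩), rfl⟩

theorem HA_ind (x : Fin 2 → K) {motive : A2 K → Prop} (h1 : ∀ g, motive (li x g))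
    (h2 : ∀ q : Polynomial K, q.coeff 0 = 0 → q.coeff 1 = 0 → motive (el x q))
    (h3 : motive 1) (h4 : ∀ a b, motive a → motive b → motive (a * b))
    (h5 : ∀ a, motive a → motive a⁻¹) (φ : A2 K) (hφ : φ ∈ HA x) : motive φ := by
  obtain ⟨p, hp, rfl⟩ := hφ
  change motive p.1
  have hp' : p ∈ Subgroup.closure (Set.range (iS x) ∪ (US x : Set (Stb x))) := hp
  clear hp
  induction hp' using Subgroup.closure_induction with
  | mem p hp =>
    rcases hp with ⟨g, rfl⟩ | ⟨q, k0, k1, k2⟩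
    · exact h1 g
    · rw [k2]
      exact h2 q k0 k1
  | one => exact h3
  | mul p q _ _ hp hq => exact h4 _ _ hp hq
  | inv p _ hp => exact h5 _ hp

theorem tr_X (v : Fin 2 → K) (a : Fin 2) :
    tr v (MvPolynomial.X a) = MvPolynomial.X a + MvPolynomial.C (v a) := mk2_X _ _ _ _ a

theorem tr_Y (x v : Fin 2 → K) (a : Fin 2) : tr v (Y (x + v) a) = Y x a := by
  have h1 := map_Y (tr v : P2 K →ₐ[K] P2 K) (x + v) a
  change tr v (Y (x + v) a) = tr v (MvPolynomial.X a) - _ at h1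
  rw [h1, tr_X, MvPolynomial.algebraMap_eq, Y, Pi.add_apply, map_add]
  ring

theorem tr_add (v w : Fin 2 → K) : tr (v + w) = tr v * tr w := by
  refine ext2 (fun a => ?_)
  change _ = tr v (tr w (MvPolynomial.X a))
  have h1 : tr v (MvPolynomial.C (w a)) = MvPolynomial.C (w a) := AlgEquiv.commutes _ _
  rw [tr_X, tr_X, map_add, tr_X, h1, Pi.add_apply, map_add]
  ring

theorem tr_zero : tr (0 : Fin 2 → K) = 1 := by
  refine ext2 (fun a => ?_)
  rw [tr_X, Pi.zero_apply, map_zero, add_zero]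
  rfl

theorem tr_neg (v : Fin 2 → K) : tr (-v) = (tr v)⁻¹ := by
  rw [eq_comm, inv_eq_iff_mul_eq_one, ← tr_add, add_neg_cancel, tr_zero]

theorem tr_conj_li (x v : Fin 2 → K) (g : M2 K) :
    tr v * li (x + v) g * (tr v)⁻¹ = li x g := by
  rw [mul_inv_eq_iff_eq_mul]
  refine extY (x + v) (fun a => ?_)
  change tr v (li (x + v) g (Y (x + v) a)) = li x g (tr v (Y (x + v) a))
  rw [li_Y, tr_Y, li_Y]
  have h1 := aeval_ln (tr v : P2 K →ₐ[K] P2 K) (x + v) (g⁻¹).1 a
  change tr v _ = _ * tr v _ + _ * tr v _ at h1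
  rw [h1, tr_Y, tr_Y]
  rfl

theorem tr_conj_el (x v : Fin 2 → K) (q : Polynomial K) :
    tr v * el (x + v) q * (tr v)⁻¹ = el x q := by
  rw [mul_inv_eq_iff_eq_mul]
  refine extY (x + v) (fun a => ?_)
  change tr v (el (x + v) q (Y (x + v) a)) = el x q (tr v (Y (x + v) a))
  rw [tr_Y]
  fin_cases a
  · change tr v (el (x + v) q (Y (x + v) 0)) = el x q (Y x 0)
    rw [el_Y0, el_Y0, map_add, tr_Y]
    have h3 := map_qq (tr v : P2 K →ₐ[K] P2 K) (x + v) q
    change tr v (qq (x + v) q) = Polynomial.aeval (tr v (Y (x + v) 1)) q at h3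
    rw [h3, tr_Y]
    rfl
  · change tr v (el (x + v) q (Y (x + v) 1)) = el x q (Y x 1)
    rw [el_Y1, el_Y1, tr_Y]

theorem tr_conj (x v : Fin 2 → K) (φ : A2 K) (hφ : φ ∈ HA (x + v)) :
    tr v * φ * (tr v)⁻¹ ∈ HA x := by
  refine HA_ind (x + v) (motive := fun φ => tr v * φ * (tr v)⁻¹ ∈ HA x) ?_ ?_ ?_ ?_ ?_ φ hφ
  · intro g
    rw [tr_conj_li]
    exact li_HA x g
  · intro q h0 h1
    rw [tr_conj_el]
    exact el_HA x q h0 h1
  · rw [mul_one, mul_inv_cancel]
    exact one_mem _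
  · intro a b ha hb
    have h1 : tr v * (a * b) * (tr v)⁻¹ = (tr v * a * (tr v)⁻¹) * (tr v * b * (tr v)⁻¹) := by
      group
    rw [h1]
    exact mul_mem ha hb
  · intro a ha
    have h1 : tr v * a⁻¹ * (tr v)⁻¹ = (tr v * a * (tr v)⁻¹)⁻¹ := by group
    rw [h1]
    exact inv_mem ha

/-- the action on the points -/
noncomputable def pt (φ : A2 K) (x : Fin 2 → K) : Fin 2 → K :=
  fun a => MvPolynomial.eval x (φ (MvPolynomial.X a))

theorem eval_pt (φ : A2 K) (x : Fin 2 → K) (p : P2 K) :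
    MvPolynomial.eval x (φ p) = MvPolynomial.eval (pt φ x) p := by
  have h1 : ((MvPolynomial.aeval x : P2 K →ₐ[K] K).comp (φ : P2 K →ₐ[K] P2 K)) =
      MvPolynomial.aeval (pt φ x) := by
    refine MvPolynomial.algHom_ext (fun a => ?_)
    rw [AlgHom.comp_apply, MvPolynomial.aeval_X]
    rfl
  exact DFunLike.congr_fun h1 p

theorem pt_mul (φ ψ : A2 K) (x : Fin 2 → K) : pt (φ * ψ) x = pt ψ (pt φ x) := by
  funext a
  change MvPolynomial.eval x (φ (ψ (MvPolynomial.X a))) = _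
  rw [eval_pt]
  rfl

theorem pt_one (x : Fin 2 → K) : pt (1 : A2 K) x = x := by
  funext a
  exact MvPolynomial.eval_X a

theorem mem_Stb_iff {x : Fin 2 → K} {φ : A2 K} : φ ∈ Stb x ↔ pt φ x = x := by
  constructor
  · intro h
    funext a
    exact (h (MvPolynomial.X a)).trans (MvPolynomial.eval_X a)
  · intro h
    exact mem_Stb (fun a => congrFun h a)

theorem pt_tr (v x : Fin 2 → K) : pt (tr v) x = x + v := by
  funext a
  change MvPolynomial.eval x (tr v (MvPolynomial.X a)) = _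
  rw [tr_X, map_add, MvPolynomial.eval_X, MvPolynomial.eval_C]
  rfl

/-- the main property of a tame automorphism -/
def Good (φ : A2 K) : Prop := ∀ x, φ * tr (x - pt φ x) ∈ HA x

theorem good_one : Good (1 : A2 K) := by
  intro x
  rw [pt_one, sub_self, tr_zero, mul_one]
  exact one_mem _

theorem good_mul (φ ψ : A2 K) (hφ : Good φ) (hψ : Good ψ) : Good (φ * ψ) := by
  intro x
  have h1 := hφ x
  have h2 := hψ (pt φ x)
  rw [pt_mul]
  have h3 := tr_conj x (pt φ x - x) (ψ * tr (pt φ x - pt ψ (pt φ x)))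
    (by rw [add_sub_cancel]; exact h2)
  have h4 : φ * ψ * tr (x - pt ψ (pt φ x)) = (φ * tr (x - pt φ x)) *
      (tr (pt φ x - x) * (ψ * tr (pt φ x - pt ψ (pt φ x))) * (tr (pt φ x - x))⁻¹) := by
    have h5 : tr (x - pt φ x) = (tr (pt φ x - x))⁻¹ := by
      rw [← tr_neg]
      congr 1
      abel
    have h6 : tr (x - pt ψ (pt φ x)) = tr (pt φ x - pt ψ (pt φ x)) * (tr (pt φ x - x))⁻¹ := by
      rw [← tr_neg, ← tr_add]
      congr 1
      abel
    rw [h5, h6]
    group
  rw [h4]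
  exact mul_mem h1 h3

theorem good_inv (φ : A2 K) (hφ : Good φ) : Good φ⁻¹ := by
  intro x
  have h1 := hφ (pt φ⁻¹ x)
  have h0 : pt φ (pt φ⁻¹ x) = x := by
    rw [← pt_mul, inv_mul_cancel, pt_one]
  rw [h0] at h1
  have h2 := tr_conj x (pt φ⁻¹ x - x) (φ * tr (pt φ⁻¹ x - x))⁻¹
    (by rw [add_sub_cancel]; exact inv_mem h1)
  have h3 : tr (pt φ⁻¹ x - x) * (φ * tr (pt φ⁻¹ x - x))⁻¹ * (tr (pt φ⁻¹ x - x))⁻¹ =
      φ⁻¹ * tr (x - pt φ⁻¹ x) := by
    have h5 : tr (x - pt φ⁻¹ x) = (tr (pt φ⁻¹ x - x))⁻¹ := by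
      rw [← tr_neg]
      congr 1
      abel
    rw [h5]
    group
  rwa [h3] at h2

theorem good_tr (v : Fin 2 → K) : Good (tr v) := by
  intro x
  rw [pt_tr, ← tr_add]
  have h1 : v + (x - (x + v)) = 0 := by abel
  rw [h1, tr_zero]
  exact one_mem _

theorem sub_tr_Y (x v : Fin 2 → K) (a : Fin 2) :
    tr v (Y x a) = Y x a + MvPolynomial.C (v a) := by
  have h1 := map_Y (tr v : P2 K →ₐ[K] P2 K) x a
  change tr v (Y x a) = tr v (MvPolynomial.X a) - _ at h1
  rw [h1, tr_X, MvPolynomial.algebraMap_eq, Y]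
  ring

theorem good_li (g : M2 K) : Good (li (0 : Fin 2 → K) g) := by
  intro x
  have h1 : li (0 : Fin 2 → K) g * tr (x - pt (li 0 g) x) = li x g := by
    refine extY x (fun a => ?_)
    change li 0 g (tr (x - pt (li 0 g) x) (Y x a)) = _
    rw [sub_tr_Y, map_add, li_Y]
    have h2 : ∀ k, li (0 : Fin 2 → K) g (MvPolynomial.C k) = MvPolynomial.C k :=
      fun k => AlgEquiv.commutes _ _
    rw [h2]
    have h3 := map_Y (li (0 : Fin 2 → K) g : P2 K →ₐ[K] P2 K) x a
    change li 0 g (Y x a) = li 0 g (MvPolynomial.X a) - _ at h3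
    have h4 : ∀ b, li (0 : Fin 2 → K) g (MvPolynomial.X b) = ln 0 (g⁻¹).1 b := by
      intro b
      have h5 := li_Y (0 : Fin 2 → K) g b
      rw [Y, Pi.zero_apply, map_zero, sub_zero] at h5
      exact h5
    have h6 : pt (li 0 g) x a = MvPolynomial.eval x (ln 0 (g⁻¹).1 a) := by
      rw [pt, h4]
    rw [h3, h4, MvPolynomial.algebraMap_eq, Pi.sub_apply, h6, ln, ln, Y, Y, Y, Y]
    simp only [Pi.zero_apply, map_zero, sub_zero, map_add, map_mul, map_sub,
      MvPolynomial.eval_C, MvPolynomial.eval_X]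
    ring
  rw [h1]
  exact li_HA x g

theorem good_el (p : Polynomial K) : Good (el (0 : Fin 2 → K) p) := by
  intro x
  let r : Polynomial K := p.comp (Polynomial.X + Polynomial.C (x 1))
  let q : Polynomial K := r - Polynomial.C (r.coeff 0) - Polynomial.C (r.coeff 1) * Polynomial.X
  have hq0 : q.coeff 0 = 0 := by simp [q]
  have hq1 : q.coeff 1 = 0 := by simp [q, Polynomial.coeff_C]
  have hr : r.coeff 0 = p.eval (x 1) := by
    rw [Polynomial.coeff_zero_eq_eval_zero]
    simp [r]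
  have hX : Polynomial.aeval (MvPolynomial.X 1 : P2 K) p = qq x r := by
    rw [qq, Polynomial.aeval_comp]
    congr 2
    rw [map_add, Polynomial.aeval_X, Polynomial.aeval_C, MvPolynomial.algebraMap_eq, Y]
    ring
  have hY0 : ∀ b, Y (0 : Fin 2 → K) b = MvPolynomial.X b := by
    intro b
    rw [Y, Pi.zero_apply, map_zero, sub_zero]
  have hqq : qq (0 : Fin 2 → K) p = qq x r := by
    rw [← hX, qq, hY0]
  have hr2 : qq x r = qq x q + MvPolynomial.C (r.coeff 1) * Y x 1 +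
      MvPolynomial.C (p.eval (x 1)) := by
    have h1 : r = q + Polynomial.C (r.coeff 1) * Polynomial.X + Polynomial.C (r.coeff 0) := by
      simp only [q]
      ring
    rw [qq, qq]
    conv_lhs => rw [h1]
    rw [map_add, map_add, map_mul, Polynomial.aeval_C, Polynomial.aeval_C, Polynomial.aeval_X,
      MvPolynomial.algebraMap_eq, hr]
  have hC : ∀ k, el (0 : Fin 2 → K) p (MvPolynomial.C k) = MvPolynomial.C k :=
    fun k => AlgEquiv.commutes _ _
  have hel0 : el (0 : Fin 2 → K) p (MvPolynomial.X 0) = MvPolynomial.X 0 + qq 0 p := by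
    have h1 := el_Y0 (0 : Fin 2 → K) p
    rwa [hY0] at h1
  have hel1 : el (0 : Fin 2 → K) p (MvPolynomial.X 1) = MvPolynomial.X 1 := by
    have h1 := el_Y1 (0 : Fin 2 → K) p
    rwa [hY0] at h1
  have hev : MvPolynomial.eval x (qq 0 p) = p.eval (x 1) := by
    rw [hqq, hr2, map_add, map_add, map_mul, eval_Y, mul_zero, eval_qq, hq0, MvPolynomial.eval_C]
    ring
  have h1 : el (0 : Fin 2 → K) p * tr (x - pt (el 0 p) x) =
      el x q * li x (up (-(r.coeff 1))) := by
    refine extY x (fun a => ?_)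
    change el 0 p (tr (x - pt (el 0 p) x) (Y x a)) = el x q (li x (up (-(r.coeff 1))) (Y x a))
    rw [sub_tr_Y, map_add, hC, li_Y, ln, map_add, map_mul, map_mul, el_Y0, el_Y1]
    have hC' : ∀ k, el x q (MvPolynomial.C k) = MvPolynomial.C k :=
      fun k => AlgEquiv.commutes _ _
    rw [hC', hC', Y, map_sub, hC]
    fin_cases a
    · change el 0 p (MvPolynomial.X 0) - MvPolynomial.C (x 0) +
        MvPolynomial.C (x 0 - MvPolynomial.eval x (el 0 p (MvPolynomial.X 0))) =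
        MvPolynomial.C 1 * (Y x 0 + qq x q) + MvPolynomial.C (-(-(r.coeff 1))) * Y x 1
      rw [hel0, map_add, MvPolynomial.eval_X, hev, hqq, hr2, neg_neg]
      simp only [map_sub, map_add, map_one, Y]
      ring
    · change el 0 p (MvPolynomial.X 1) - MvPolynomial.C (x 1) +
        MvPolynomial.C (x 1 - MvPolynomial.eval x (el 0 p (MvPolynomial.X 1))) =
        MvPolynomial.C 0 * (Y x 0 + qq x q) + MvPolynomial.C 1 * Y x 1
      rw [hel1, MvPolynomial.eval_X]
      simp only [map_sub, map_one, map_zero, Y]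
      ring
  rw [h1]
  exact mul_mem (el_HA x q hq0 hq1) (li_HA x _)

theorem good_tame (φ : A2 K) (hφ : φ ∈ Tame K) : Good φ := by
  induction hφ using Subgroup.closure_induction with
  | mem φ h =>
    rcases h with (⟨g, rfl⟩ | ⟨q, rfl⟩) | ⟨v, rfl⟩
    · exact good_li g
    · exact good_el q
    · exact good_tr v
  | one => exact good_one
  | mul φ ψ _ _ h1 h2 => exact good_mul φ ψ h1 h2
  | inv φ _ h => exact good_inv φ h

theorem tame_stab (x : Fin 2 → K) (φ : Stb x) (hφ : φ.1 ∈ Tame K) : φ ∈ HH x := by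
  have h1 := good_tame φ.1 hφ x
  rw [mem_Stb_iff.1 φ.2, sub_self, tr_zero, mul_one] at h1
  obtain ⟨ψ, hψ, h2⟩ := h1
  have h3 : ψ = φ := Subtype.ext h2
  rw [← h3]
  exact hψ

/-- main theorem -/
theorem tame_mem {C : ∀ (G : Type) [Group G], Prop} (hC : Closed C) (hE : ExtClosed C)
    (hS : ∀ (G : Type) [Group G], Group.IsSolvable G → C G) (Γ : Subgroup (A2 K))
    (hΓ : Γ ≤ Tame K) (x : Fin 2 → K) (hfin : {y | ∃ φ ∈ Γ, pt φ x = y}.Finite)
    (hQ : C ((Γ.subgroupOf (Stb x)).map (lin x))) : C Γ := by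
  have h1 : C (Γ.subgroupOf (Stb x)) :=
    pa_mem hC hE hS x _ (fun φ hφ => tame_stab x φ (hΓ hφ)) hQ
  have h2 : C ((Stb x).subgroupOf Γ) := by
    refine hC.of_injective _ _
      ({ toFun := fun φ => ⟨⟨φ.1.1, φ.2⟩, φ.1.2⟩
         map_one' := rfl
         map_mul' := fun _ _ => rfl } : (Stb x).subgroupOf Γ →* Γ.subgroupOf (Stb x)) ?_ h1
    intro a b hab
    apply Subtype.ext
    apply Subtype.ext
    exact congrArg (fun w : Γ.subgroupOf (Stb x) => w.1.1) hab
  haveI : Finite (Γ ⧸ (Stb x).subgroupOf Γ) := by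
    haveI : Finite {y | ∃ φ ∈ Γ, pt φ x = y} := hfin
    refine Finite.of_injective (β := {y | ∃ φ ∈ Γ, pt φ x = y})
      (fun c => ⟨pt ((Quotient.out c)⁻¹ : Γ).1 x, _, ((Quotient.out c)⁻¹ : Γ).2, rfl⟩) ?_
    intro c d hcd
    have h3 : pt ((Quotient.out c)⁻¹ : Γ).1 x = pt ((Quotient.out d)⁻¹ : Γ).1 x :=
      congrArg Subtype.val hcd
    have h4 : ((Quotient.out c : Γ) : Γ ⧸ (Stb x).subgroupOf Γ) =
        ((Quotient.out d : Γ) : Γ ⧸ (Stb x).subgroupOf Γ) := by
      rw [QuotientGroup.eq]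
      change ((Quotient.out c)⁻¹ * Quotient.out d : Γ).1 ∈ Stb x
      rw [mem_Stb_iff]
      change pt (((Quotient.out c)⁻¹ : Γ).1 * (Quotient.out d : Γ).1) x = x
      rw [pt_mul, h3, ← pt_mul]
      have h5 : ((Quotient.out d)⁻¹ : Γ).1 * (Quotient.out d : Γ).1 = 1 := by
        rw [← Subgroup.coe_mul, inv_mul_cancel]
        rfl
      rw [h5, pt_one]
    have h5 := Quotient.out_eq' c
    have h6 := Quotient.out_eq' d
    calc c = ((Quotient.out c : Γ) : Γ ⧸ (Stb x).subgroupOf Γ) := h5.symm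
      _ = ((Quotient.out d : Γ) : Γ ⧸ (Stb x).subgroupOf Γ) := h4
      _ = d := h6
  exact hC.finiteIndex _ _ Subgroup.finiteIndex_of_finite_quotient h2

theorem li_tame (x : Fin 2 → K) (g : M2 K) : li x g ∈ Tame K := by
  rw [← tr_conj_li x (-x) g, add_neg_cancel]
  have h1 : tr (-x) ∈ Tame K := Subgroup.subset_closure (Or.inr ⟨_, rfl⟩)
  exact mul_mem (mul_mem h1 (Subgroup.subset_closure (Or.inl (Or.inl ⟨g, rfl⟩)))) (inv_mem h1)

/-- the group of all tame automorphisms that fix `x` -/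
theorem stab_iff {C : ∀ (G : Type) [Group G], Prop} (hC : Closed C) (hE : ExtClosed C)
    (hS : ∀ (G : Type) [Group G], Group.IsSolvable G → C G) (x : Fin 2 → K) :
    C ((Tame K).subgroupOf (Stb x)) ↔ C (M2 K) := by
  constructor
  · intro h
    refine hC.of_injective _ _ ((iS x).codRestrict ((Tame K).subgroupOf (Stb x))
      (fun g => li_tame x g)) ?_ h
    intro a b hab
    have h1 : iS x a = iS x b := congrArg Subtype.val hab
    rw [← lin_iS x a, h1, lin_iS]
  · intro h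
    exact pa_mem hC hE hS x _ (fun φ hφ => tame_stab x φ hφ) (of_sub hC _ h)

end Pool.Agent.Q143.JN
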